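import Mathlib

/-!
Moments of the number of divisors up to `X`, and a large set without elements that are multiples of
`k` other elements.
-/

set_option autoImplicit false

namespace Pool.Agent.TH444.MF

/-- the divisors of `a` that are at most `X` -/
def D (X a : ℕ) : Finset ℕ := a.divisors.filter (fun d => d ≤ X)

/-- number of `r`-tuples of numbers at most `X` whose product divides `a` -/
def N (X : ℕ) : ℕ → ℕ → ℕ
  | 0, _ => 1
  | r + 1, a => ∑ e ∈ D X a, N X r (a / e)

theorem mem_D {X a d : ℕ} : d ∈ D X a ↔ d ∣ a ∧ a ≠ 0 ∧ d ≤ X := by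
  simp [D, and_assoc]

theorem T_le {X a e : ℕ} (ha : a ≠ 0) (he : e ∣ a) :
    (D X a).card ≤ e.divisors.card * (D X (a / e)).card := by
  rw [← Finset.card_product]
  apply Finset.card_le_card_of_injOn (fun d => (d.gcd e, d / d.gcd e))
  · intro d hd
    have hd' := mem_D.1 (Finset.mem_coe.1 hd)
    have hd0 : 0 < d := Nat.pos_of_dvd_of_pos hd'.1 (Nat.pos_of_ne_zero ha)
    have he0 : 0 < e := Nat.pos_of_dvd_of_pos he (Nat.pos_of_ne_zero ha)
    have hg0 : 0 < d.gcd e := Nat.gcd_pos_of_pos_left _ hd0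
    simp only [Finset.coe_product, Set.mem_prod, Finset.mem_coe, Nat.mem_divisors, mem_D]
    refine ⟨⟨Nat.gcd_dvd_right _ _, he0.ne'⟩, ?_, ?_, (Nat.div_le_self _ _).trans hd'.2.2⟩
    · obtain ⟨c, hc⟩ := he
      have h1 : a / e = c := by rw [hc]; exact Nat.mul_div_cancel_left _ he0
      rw [h1]
      have h2 : Nat.Coprime (d / d.gcd e) (e / d.gcd e) := Nat.coprime_div_gcd_div_gcd hg0
      apply h2.dvd_of_dvd_mul_left
      have h3 : d ∣ d.gcd e * (e / d.gcd e * c) := by
        rw [← mul_assoc, Nat.mul_div_cancel' (Nat.gcd_dvd_right _ _), ← hc]; exact hd'.1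
      have h4 : d.gcd e * (d / d.gcd e) ∣ d.gcd e * (e / d.gcd e * c) := by
        rw [Nat.mul_div_cancel' (Nat.gcd_dvd_left _ _)]; exact h3
      exact Nat.dvd_of_mul_dvd_mul_left hg0 h4
    · have : 0 < a / e := Nat.div_pos (Nat.le_of_dvd (Nat.pos_of_ne_zero ha) he) he0
      exact this.ne'
  · intro d _ d' _ h
    simp only [Prod.mk.injEq] at h
    have h1 : d.gcd e * (d / d.gcd e) = d := Nat.mul_div_cancel' (Nat.gcd_dvd_left _ _)
    have h2 : d'.gcd e * (d' / d'.gcd e) = d' := Nat.mul_div_cancel' (Nat.gcd_dvd_left _ _)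
    calc d = d.gcd e * (d / d.gcd e) := h1.symm
      _ = d'.gcd e * (d' / d'.gcd e) := congrArg₂ (· * ·) h.1 h.2
      _ = d' := h2

theorem N_mul_T (X : ℕ) : ∀ (r a : ℕ), a ≠ 0 → N X r a * (D X a).card ≤ N X (2 * r + 1) a := by
  intro r
  induction r with
  | zero =>
    intro a _
    simp [N]
  | succ r ih =>
    intro a ha
    have h1 : N X (r + 1) a * (D X a).card ≤
        ∑ e ∈ D X a, e.divisors.card * N X (2 * r + 1) (a / e) := by
      rw [N, Finset.sum_mul]
      apply Finset.sum_le_sum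
      intro e he
      have he' := mem_D.1 he
      have he0 : 0 < e := Nat.pos_of_dvd_of_pos he'.1 (Nat.pos_of_ne_zero ha)
      have h0 : a / e ≠ 0 :=
        (Nat.div_pos (Nat.le_of_dvd (Nat.pos_of_ne_zero ha) he'.1) he0).ne'
      calc N X r (a / e) * (D X a).card ≤ N X r (a / e) * (e.divisors.card * (D X (a / e)).card) :=
            Nat.mul_le_mul_left _ (T_le ha he'.1)
        _ = e.divisors.card * (N X r (a / e) * (D X (a / e)).card) := by ring
        _ ≤ _ := Nat.mul_le_mul_left _ (ih _ h0)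
    refine h1.trans ?_
    have h2 : N X (2 * (r + 1) + 1) a =
        ∑ p ∈ (D X a).sigma (fun e => D X (a / e)), N X (2 * r + 1) (a / p.1 / p.2) := by
      rw [Finset.sum_sigma]
      rfl
    have h3 : ∑ e ∈ D X a, e.divisors.card * N X (2 * r + 1) (a / e) =
        ∑ p ∈ (D X a).sigma (fun e => e.divisors), N X (2 * r + 1) (a / p.1) := by
      rw [Finset.sum_sigma]
      simp
    rw [h2, h3]
    let φ : (Σ _ : ℕ, ℕ) → (Σ _ : ℕ, ℕ) := fun p => ⟨p.2, p.1 / p.2⟩
    have hinj : Set.InjOn φ ((D X a).sigma (fun e => e.divisors) : Finset (Σ _ : ℕ, ℕ)) := by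
      rintro ⟨e, g⟩ hp ⟨e', g'⟩ hp' h
      simp only [Finset.coe_sigma, Set.mem_sigma_iff, Finset.mem_coe, Nat.mem_divisors] at hp hp'
      simp only [φ, Sigma.mk.injEq, heq_eq_eq] at h
      obtain ⟨h4, h5⟩ := h
      subst h4
      have h6 : g * (e / g) = e := Nat.mul_div_cancel' hp.2.1
      have h7 : g * (e' / g) = e' := Nat.mul_div_cancel' hp'.2.1
      have h8 : e = e' := by rw [← h6, ← h7, h5]
      subst h8
      rfl
    have h9 : ∀ p ∈ (D X a).sigma (fun e => e.divisors),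
        N X (2 * r + 1) (a / p.1) = N X (2 * r + 1) (a / (φ p).1 / (φ p).2) := by
      rintro ⟨e, g⟩ hp
      simp only [Finset.mem_sigma, Nat.mem_divisors] at hp
      simp only [φ]
      rw [Nat.div_div_eq_div_mul, Nat.mul_div_cancel' hp.2.1]
    rw [Finset.sum_congr rfl h9,
      ← Finset.sum_image (f := fun q : (Σ _ : ℕ, ℕ) => N X (2 * r + 1) (a / q.1 / q.2)) hinj]
    apply Finset.sum_le_sum_of_subset
    intro q hq
    obtain ⟨⟨e, g⟩, hp, rfl⟩ := Finset.mem_image.1 hq
    simp only [Finset.mem_sigma, Nat.mem_divisors, mem_D] at hp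
    obtain ⟨⟨hea, -, heX⟩, hge, he0⟩ := hp
    have hg0 : 0 < g := Nat.pos_of_dvd_of_pos hge (Nat.pos_of_ne_zero he0)
    have hgle : g ≤ e := Nat.le_of_dvd (Nat.pos_of_ne_zero he0) hge
    have hga : g ∣ a := hge.trans hea
    simp only [φ, Finset.mem_sigma, mem_D]
    refine ⟨⟨hga, ha, hgle.trans heX⟩, ?_, ?_, (Nat.div_le_self _ _).trans heX⟩
    · exact Nat.div_dvd_div hge hea
    · exact (Nat.div_pos (Nat.le_of_dvd (Nat.pos_of_ne_zero ha) hga) hg0).ne'

theorem T_pow_le (X a : ℕ) (ha : a ≠ 0) (m : ℕ) : (D X a).card ^ m ≤ N X (2 ^ m - 1) a := by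
  induction m with
  | zero => simp [N]
  | succ m ih =>
    have h1 : 2 ^ (m + 1) - 1 = 2 * (2 ^ m - 1) + 1 := by
      have : 0 < 2 ^ m := by positivity
      rw [pow_succ]; omega
    rw [pow_succ, h1]
    exact (Nat.mul_le_mul_right _ ih).trans (N_mul_T X _ a ha)

theorem sum_N_le (X : ℕ) (r : ℕ) : ∀ n : ℕ,
    ((∑ a ∈ Finset.Icc 1 n, N X r a : ℕ) : ℝ) ≤ n * (∑ e ∈ Finset.Icc 1 X, (e : ℝ)⁻¹) ^ r := by
  induction r with
  | zero => intro n; simp [N]
  | succ r ih =>
    intro n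
    have h1 : ∑ a ∈ Finset.Icc 1 n, N X (r + 1) a =
        ∑ e ∈ Finset.Icc 1 X, ∑ b ∈ Finset.Icc 1 (n / e), N X r b := by
      simp only [N]
      rw [Finset.sum_sigma', Finset.sum_sigma']
      apply Finset.sum_nbij' (fun p => ⟨p.2, p.1 / p.2⟩) (fun q => ⟨q.1 * q.2, q.1⟩)
      · rintro ⟨a, e⟩ h
        simp only [Finset.mem_sigma, Finset.mem_Icc, mem_D] at h ⊢
        obtain ⟨⟨ha1, han⟩, hea, ha0, heX⟩ := h
        have he0 : 0 < e := Nat.pos_of_dvd_of_pos hea ha1
        exact ⟨⟨he0, heX⟩, Nat.div_pos (Nat.le_of_dvd ha1 hea) he0, Nat.div_le_div_right han⟩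
      · rintro ⟨e, b⟩ h
        simp only [Finset.mem_sigma, Finset.mem_Icc, mem_D] at h ⊢
        obtain ⟨⟨he1, heX⟩, hb1, hbn⟩ := h
        have h2 : e * b ≤ n := by
          calc e * b ≤ e * (n / e) := Nat.mul_le_mul_left _ hbn
            _ ≤ n := Nat.mul_div_le n e
        exact ⟨⟨Nat.mul_pos he1 hb1, h2⟩, ⟨b, rfl⟩, (Nat.mul_pos he1 hb1).ne', heX⟩
      · rintro ⟨a, e⟩ h
        simp only [Finset.mem_sigma, Finset.mem_Icc, mem_D] at h
        simp only [Nat.mul_div_cancel' h.2.1]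
      · rintro ⟨e, b⟩ h
        simp only [Finset.mem_sigma, Finset.mem_Icc] at h
        simp only [Nat.mul_div_cancel_left b h.1.1]
      · rintro ⟨a, e⟩ _
        rfl
    rw [h1]
    push_cast
    rw [pow_succ]
    calc ∑ e ∈ Finset.Icc 1 X, ∑ b ∈ Finset.Icc 1 (n / e), (N X r b : ℝ)
        ≤ ∑ e ∈ Finset.Icc 1 X, (n : ℝ) * (e : ℝ)⁻¹ *
            (∑ e ∈ Finset.Icc 1 X, (e : ℝ)⁻¹) ^ r := by
          apply Finset.sum_le_sum
          intro e _
          have h2 := ih (n / e)
          push_cast at h2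
          refine h2.trans ?_
          apply mul_le_mul_of_nonneg_right _ (by positivity)
          rw [← div_eq_mul_inv]
          exact Nat.cast_div_le
      _ = _ := by
          rw [← Finset.sum_mul, ← Finset.mul_sum]
          ring

/-- The number of `a ≤ n` with more than `k` divisors up to `X`. -/
theorem count_le (X n k m : ℕ) :
    (((Finset.Icc 1 n).filter (fun a => k + 1 ≤ (D X a).card)).card : ℝ) * (k + 1 : ℝ) ^ m ≤
      n * (∑ e ∈ Finset.Icc 1 X, (e : ℝ)⁻¹) ^ (2 ^ m - 1) := by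
  refine le_trans ?_ (sum_N_le X (2 ^ m - 1) n)
  have h1 : ((Finset.Icc 1 n).filter (fun a => k + 1 ≤ (D X a).card)).card * (k + 1) ^ m ≤
      ∑ a ∈ Finset.Icc 1 n, N X (2 ^ m - 1) a := by
    calc _ = ∑ a ∈ (Finset.Icc 1 n).filter (fun a => k + 1 ≤ (D X a).card), (k + 1) ^ m := by
          rw [Finset.sum_const, smul_eq_mul]
      _ ≤ ∑ a ∈ (Finset.Icc 1 n).filter (fun a => k + 1 ≤ (D X a).card), N X (2 ^ m - 1) a := by
          apply Finset.sum_le_sum
          intro a ha
          simp only [Finset.mem_filter, Finset.mem_Icc] at ha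
          exact (Nat.pow_le_pow_left ha.2 m).trans (T_pow_le X a (by omega) m)
      _ ≤ _ := Finset.sum_le_sum_of_subset (Finset.filter_subset _ _)
  exact_mod_cast h1

/-- The large set. -/
theorem exists_large (X n k m : ℕ) (hX : 1 ≤ X) (hk : 1 ≤ k) :
    ∃ A ⊆ Finset.Icc 1 n, (∀ a ∈ A, (A.filter (fun b => b ≠ a ∧ b ∣ a)).card < k) ∧
      (n : ℝ) * (1 - 1 / (X + 1) - (∑ e ∈ Finset.Icc 1 X, (e : ℝ)⁻¹) ^ (2 ^ m - 1) /
        (k + 1 : ℝ) ^ m) ≤ A.card := by
  let A := (Finset.Icc 1 n).filter (fun a => n < a * (X + 1) ∧ ¬ (k + 1 ≤ (D X a).card))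
  refine ⟨A, Finset.filter_subset _ _, ?_, ?_⟩
  · intro a ha
    simp only [A, Finset.mem_filter, Finset.mem_Icc] at ha
    obtain ⟨⟨ha1, han⟩, hax, hak⟩ := ha
    have h1 : (A.filter (fun b => b ≠ a ∧ b ∣ a)).card ≤ ((D X a).erase 1).card := by
      apply Finset.card_le_card_of_injOn (fun b => a / b)
      · intro b hb
        simp only [A, Finset.coe_filter, Set.mem_setOf_eq, Finset.mem_filter,
          Finset.mem_Icc] at hb
        obtain ⟨⟨⟨hb1, hbn⟩, hbx, -⟩, hba, hbd⟩ := hb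
        simp only [Finset.coe_erase, Set.mem_diff, Finset.mem_coe, mem_D, Set.mem_singleton_iff]
        have h2 : b * (a / b) = a := Nat.mul_div_cancel' hbd
        refine ⟨⟨Nat.div_dvd_of_dvd hbd, by omega, ?_⟩, ?_⟩
        · by_contra hc
          push Not at hc
          have h3 : b * (X + 1) ≤ b * (a / b) := Nat.mul_le_mul_left _ hc
          omega
        · intro hc
          rw [hc, mul_one] at h2
          exact hba h2
      · intro b hb b' hb' h
        simp only [A, Finset.coe_filter, Set.mem_setOf_eq, Finset.mem_filter,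
          Finset.mem_Icc] at hb hb'
        have h2 : b * (a / b) = a := Nat.mul_div_cancel' hb.2.2
        have h3 : b' * (a / b') = a := Nat.mul_div_cancel' hb'.2.2
        have h4 : a / b = a / b' := h
        have h5 : 0 < a / b := by
          rcases Nat.eq_zero_or_pos (a / b) with h0 | h0
          · rw [h0, mul_zero] at h2; omega
          · exact h0
        apply Nat.eq_of_mul_eq_mul_right h5
        rw [h2, h4, h3]
    have h2 : 1 ∈ D X a := mem_D.2 ⟨one_dvd _, by omega, hX⟩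
    rw [Finset.card_erase_of_mem h2] at h1
    have h3 : 0 < (D X a).card := Finset.card_pos.2 ⟨1, h2⟩
    omega
  · have h1 : (Finset.Icc 1 n).card ≤ A.card +
        ((Finset.Icc 1 n).filter (fun a => a * (X + 1) ≤ n)).card +
        ((Finset.Icc 1 n).filter (fun a => k + 1 ≤ (D X a).card)).card := by
      refine le_trans (Finset.card_le_card (t := A ∪
        (Finset.Icc 1 n).filter (fun a => a * (X + 1) ≤ n) ∪
        (Finset.Icc 1 n).filter (fun a => k + 1 ≤ (D X a).card)) ?_) ?_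
      · intro a ha
        simp only [A, Finset.mem_union, Finset.mem_filter]
        by_cases h2 : a * (X + 1) ≤ n
        · exact Or.inl (Or.inr ⟨ha, h2⟩)
        · by_cases h3 : k + 1 ≤ (D X a).card
          · exact Or.inr ⟨ha, h3⟩
          · exact Or.inl (Or.inl ⟨ha, by omega, h3⟩)
      · exact (Finset.card_union_le _ _).trans
          (Nat.add_le_add_right (Finset.card_union_le _ _) _)
    have h2 : ((Finset.Icc 1 n).filter (fun a => a * (X + 1) ≤ n)).card ≤ n / (X + 1) := by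
      refine le_trans (Finset.card_le_card (t := Finset.Icc 1 (n / (X + 1))) ?_) (by simp)
      intro a ha
      simp only [Finset.mem_filter, Finset.mem_Icc] at ha ⊢
      exact ⟨ha.1.1, (Nat.le_div_iff_mul_le (by omega)).2 ha.2⟩
    have h3 : (((Finset.Icc 1 n).filter (fun a => a * (X + 1) ≤ n)).card : ℝ) ≤ n / (X + 1) := by
      refine le_trans (Nat.cast_le.2 h2) ?_
      have := @Nat.cast_div_le ℝ _ _ _ n (X + 1)
      push_cast at this
      exact this
    have h4 := count_le X n k m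
    have hpos : (0 : ℝ) < (k + 1 : ℝ) ^ m := by positivity
    have h5 : (((Finset.Icc 1 n).filter (fun a => k + 1 ≤ (D X a).card)).card : ℝ) ≤
        n * ((∑ e ∈ Finset.Icc 1 X, (e : ℝ)⁻¹) ^ (2 ^ m - 1) / (k + 1 : ℝ) ^ m) := by
      rw [← mul_div_assoc, le_div_iff₀ hpos]
      exact h4
    have h6 : (n : ℝ) ≤ A.card +
        ((Finset.Icc 1 n).filter (fun a => a * (X + 1) ≤ n)).card +
        ((Finset.Icc 1 n).filter (fun a => k + 1 ≤ (D X a).card)).card := by
      have h7 := h1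
      rw [Nat.card_Icc, Nat.add_sub_cancel] at h7
      exact_mod_cast h7
    have h8 : (n : ℝ) * (1 - 1 / (X + 1) - (∑ e ∈ Finset.Icc 1 X, (e : ℝ)⁻¹) ^ (2 ^ m - 1) /
        (k + 1 : ℝ) ^ m) = n - n / (X + 1) -
        n * ((∑ e ∈ Finset.Icc 1 X, (e : ℝ)⁻¹) ^ (2 ^ m - 1) / (k + 1 : ℝ) ^ m) := by ring
    rw [h8]
    linarith

end Pool.Agent.TH444.MF
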