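import Mathlib

/-!
Upper bound: families `t * d`, `d ∣ D`, for `t` coprime to `D`.
-/

set_option autoImplicit false
open Finset

namespace Pool.Agent.TH444.MF

theorem upper_comb (n k D : ℕ) (hD : 1 ≤ D) (hk : k + 1 ≤ D.divisors.card) (A : Finset ℕ)
    (hAn : A ⊆ Icc 1 n) (hA : ∀ a ∈ A, (A.filter (fun b => b ≠ a ∧ b ∣ a)).card < k) :
    A.card + ((Icc 1 (n / D)).filter (fun t => D.Coprime t)).card ≤ n := by
  classical
  have h1 : ∀ t ∈ (Icc 1 (n / D)).filter (fun t => D.Coprime t), ∃ d ∈ D.divisors, t * d ∉ A := by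
    intro t ht
    simp only [mem_filter, mem_Icc] at ht
    by_contra hc
    push Not at hc
    have h2 : t * D ∈ A := hc D (Nat.mem_divisors_self D (by omega))
    have h3 := hA _ h2
    have h4 : (D.divisors.erase D).card ≤
        (A.filter (fun b => b ≠ t * D ∧ b ∣ t * D)).card := by
      apply card_le_card_of_injOn (fun d => t * d)
      · intro d hd
        simp only [coe_erase, Set.mem_sdiff, mem_coe, Set.mem_singleton_iff] at hd
        simp only [coe_filter, Set.mem_ofPred_eq]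
        refine ⟨hc d hd.1, ?_, Nat.mul_dvd_mul_left _ (Nat.dvd_of_mem_divisors hd.1)⟩
        intro h5
        exact hd.2 (Nat.eq_of_mul_eq_mul_left (by omega) h5)
      · intro d _ d' _ h
        exact Nat.eq_of_mul_eq_mul_left (by omega) h
    rw [card_erase_of_mem (Nat.mem_divisors_self D (by omega))] at h4
    omega
  choose! f hf using h1
  have h2 : ((Icc 1 (n / D)).filter (fun t => D.Coprime t)).card ≤ (Icc 1 n \ A).card := by
    apply card_le_card_of_injOn (fun t => t * f t)
    · intro t ht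
      have h3 := hf t ht
      have ht' := ht
      simp only [coe_filter, Set.mem_ofPred_eq, mem_Icc] at ht'
      have h4 : f t ∣ D := Nat.dvd_of_mem_divisors h3.1
      have h5 : f t ≤ D := Nat.le_of_dvd hD h4
      have h6 : 0 < f t := Nat.pos_of_dvd_of_pos h4 hD
      simp only [coe_sdiff, Set.mem_sdiff, mem_coe, mem_Icc]
      refine ⟨⟨Nat.mul_pos ht'.1.1 h6, ?_⟩, h3.2⟩
      calc t * f t ≤ (n / D) * D := Nat.mul_le_mul ht'.1.2 h5
        _ ≤ n := Nat.div_mul_le_self n D
    · intro t ht t' ht' h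
      have h3 := hf t ht
      have h3' := hf t' ht'
      simp only [coe_filter, Set.mem_ofPred_eq, mem_Icc] at ht ht'
      have h4 : f t ∣ D := Nat.dvd_of_mem_divisors h3.1
      have h4' : f t' ∣ D := Nat.dvd_of_mem_divisors h3'.1
      have h : t * f t = t' * f t' := h
      have h5 : t ∣ t' := by
        have h6 : t ∣ t' * f t' := h ▸ Dvd.intro _ rfl
        exact ((ht.2.symm).coprime_dvd_right h4').dvd_of_dvd_mul_right h6
      have h5' : t' ∣ t := by
        have h6 : t' ∣ t * f t := h.symm ▸ Dvd.intro _ rfl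
        exact ((ht'.2.symm).coprime_dvd_right h4).dvd_of_dvd_mul_right h6
      exact Nat.dvd_antisymm h5 h5'
  have h3 : (Icc 1 n \ A).card = n - A.card := by
    rw [card_sdiff_of_subset hAn, Nat.card_Icc, Nat.add_sub_cancel]
  have h4 : A.card ≤ n := by
    have := card_le_card hAn
    rwa [Nat.card_Icc, Nat.add_sub_cancel] at this
  omega

theorem count_coprime (D q : ℕ) :
    ((Ico 1 (1 + q * D)).filter (fun t => D.Coprime t)).card = q * D.totient := by
  induction q with
  | zero => simp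
  | succ q ih =>
    have h1 : Ico 1 (1 + (q + 1) * D) = Ico 1 (1 + q * D) ∪ Ico (1 + q * D) (1 + q * D + D) := by
      rw [Ico_union_Ico_eq_Ico (by omega) (by omega)]
      congr 1
      ring
    rw [h1, filter_union, card_union_of_disjoint, ih, Nat.filter_coprime_Ico_eq_totient]
    · ring
    · apply disjoint_filter_filter
      exact Ico_disjoint_Ico_consecutive _ _ _

theorem count_coprime' (n D : ℕ) (hD : 1 ≤ D) :
    (n / (D * D)) * D.totient ≤ ((Icc 1 (n / D)).filter (fun t => D.Coprime t)).card := by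
  rw [← count_coprime]
  apply card_le_card
  apply filter_subset_filter
  intro t ht
  simp only [mem_Ico, mem_Icc] at ht ⊢
  refine ⟨ht.1, ?_⟩
  have h1 : n / (D * D) * D ≤ n / D := by
    rw [← Nat.div_div_eq_div_mul]
    exact Nat.div_mul_le_self _ _
  omega

theorem prod_facts (S : Finset ℕ) (hS : ∀ p ∈ S, p.Prime) :
    (∏ p ∈ S, p).divisors.card = 2 ^ S.card ∧
    (∏ p ∈ S, p) ≤ 2 ^ S.card * (∏ p ∈ S, p).totient ∧ 0 < ∏ p ∈ S, p := by
  classical
  induction S using Finset.induction_on with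
  | empty => simp
  | insert p S hp ih =>
    obtain ⟨h1, h2, h3⟩ := ih (fun q hq => hS q (mem_insert_of_mem hq))
    have hpp : p.Prime := hS p (mem_insert_self _ _)
    have hcop : p.Coprime (∏ q ∈ S, q) := by
      apply Nat.Coprime.prod_right
      intro q hq
      rw [Nat.coprime_primes hpp (hS q (mem_insert_of_mem hq))]
      rintro rfl
      exact hp hq
    rw [prod_insert hp, card_insert_of_notMem hp]
    refine ⟨?_, ?_, Nat.mul_pos hpp.pos h3⟩
    · rw [hcop.card_divisors_mul, h1, hpp.divisors, card_pair hpp.one_lt.ne, pow_succ]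
      ring
    · rw [Nat.totient_mul hcop, Nat.totient_prime hpp, pow_succ]
      have h4 : p ≤ 2 * (p - 1) := by have := hpp.two_le; omega
      calc p * ∏ q ∈ S, q ≤ (2 * (p - 1)) * (2 ^ S.card * (∏ q ∈ S, q).totient) :=
            Nat.mul_le_mul h4 h2
        _ = _ := by ring

/-- The upper bound, given `r` primes up to `y` with `k < 2 ^ r`. -/
theorem upper_bound (k r y : ℕ) (hr : r ≤ Nat.primeCounting y) (hk : k + 1 ≤ 2 ^ r) :
    ∃ n₀ : ℕ, ∀ n ≥ n₀, ∀ A ⊆ Icc 1 n,
      (∀ a ∈ A, (A.filter (fun b => b ≠ a ∧ b ∣ a)).card < k) →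
      (A.card : ℝ) ≤ n * (1 - 1 / (2 * 2 ^ r * (y : ℝ) ^ r)) := by
  classical
  rw [← Nat.primesLE_card_eq_primeCounting] at hr
  obtain ⟨S, hSs, hSc⟩ := exists_subset_card_eq hr
  have hSp : ∀ p ∈ S, p.Prime := fun p hp => Nat.prime_of_mem_primesLE (hSs hp)
  have hSy : ∀ p ∈ S, p ≤ y := fun p hp => Nat.le_of_mem_primesLE (hSs hp)
  obtain ⟨h1, h2, h3⟩ := prod_facts S hSp
  set D := ∏ p ∈ S, p with hDdef
  rw [hSc] at h1 h2
  have hDy : D ≤ y ^ r := by
    rw [hDdef, ← hSc]
    exact prod_le_pow_card _ _ _ hSy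
  have hy0 : 0 < y ^ r := lt_of_lt_of_le h3 hDy
  refine ⟨2 * (D * D), fun n hn A hAn hA => ?_⟩
  have h4 := upper_comb n k D h3 (by rw [h1]; exact hk) A hAn hA
  have h5 := count_coprime' n D h3
  have h6 : (A.card : ℝ) + ((n / (D * D) : ℕ) : ℝ) * D.totient ≤ n := by
    have : A.card + (n / (D * D)) * D.totient ≤ n := by omega
    exact_mod_cast this
  have hD0 : (0 : ℝ) < D := by exact_mod_cast h3
  have h7 : (n : ℝ) / (2 * (D * D)) ≤ ((n / (D * D) : ℕ) : ℝ) := by
    have h8 : n < (n / (D * D) + 1) * (D * D) := by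
      have := Nat.lt_div_mul_add (a := n) (b := D * D) (Nat.mul_pos h3 h3)
      linarith
    have h9 : (n : ℝ) < (((n / (D * D) : ℕ) : ℝ) + 1) * (D * D) := by exact_mod_cast h8
    have h10 : (2 : ℝ) * (D * D) ≤ n := by exact_mod_cast hn
    rw [div_le_iff₀ (by positivity)]
    nlinarith [mul_pos hD0 hD0]
  have h8 : (D : ℝ) ≤ 2 ^ r * D.totient := by exact_mod_cast h2
  have h9 : (n : ℝ) * (1 / (2 * 2 ^ r * (y : ℝ) ^ r)) ≤
      ((n / (D * D) : ℕ) : ℝ) * D.totient := by
    have hy1 : (D : ℝ) ≤ (y : ℝ) ^ r := by exact_mod_cast hDy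
    calc (n : ℝ) * (1 / (2 * 2 ^ r * (y : ℝ) ^ r)) ≤ n * (1 / (2 * 2 ^ r * D)) := by
          apply mul_le_mul_of_nonneg_left _ (Nat.cast_nonneg _)
          apply one_div_le_one_div_of_le (by positivity)
          apply mul_le_mul_of_nonneg_left hy1 (by positivity)
      _ ≤ (n : ℝ) / (2 * (D * D)) * D.totient := by
          have hn0 : (0 : ℝ) ≤ n := Nat.cast_nonneg _
          rw [mul_one_div, div_mul_eq_mul_div, div_le_div_iff₀ (by positivity) (by positivity)]
          have h10 : (n : ℝ) * (2 * D) * D ≤ (n : ℝ) * (2 * D) * (2 ^ r * D.totient) :=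
            mul_le_mul_of_nonneg_left h8 (by positivity)
          nlinarith
      _ ≤ _ := mul_le_mul_of_nonneg_right h7 (Nat.cast_nonneg _)
  rw [mul_sub, mul_one]
  linarith

end Pool.Agent.TH444.MF
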