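import Mathlib
import Pool.Agent.TH444.MF.Moment
import Pool.Agent.TH444.MF.Upper

/-!
Asymptotics of the two bounds.
-/

set_option autoImplicit false
open Finset Filter Real

namespace Pool.Agent.TH444.MF

theorem harm_le (k m : ℕ) (hk : 1 ≤ k) :
    (∑ e ∈ Icc 1 (k ^ m), (e : ℝ)⁻¹) ≤ 1 + m * log k := by
  have h1 := harmonic_le_one_add_log (k ^ m)
  rw [harmonic_eq_sum_Icc] at h1
  push_cast at h1
  rw [Real.log_pow] at h1
  exact_mod_cast h1

theorem one_le_harm (X : ℕ) (hX : 1 ≤ X) : (1 : ℝ) ≤ ∑ e ∈ Icc 1 X, (e : ℝ)⁻¹ := by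
  have h1 : ((1 : ℕ) : ℝ)⁻¹ ≤ ∑ e ∈ Icc 1 X, (e : ℝ)⁻¹ :=
    single_le_sum (f := fun e : ℕ => (e : ℝ)⁻¹) (fun e _ => by positivity)
      (mem_Icc.2 ⟨le_refl _, hX⟩)
  simpa using h1

/-- The estimate for the lower bound of `g`. -/
theorem estA (ε L : ℝ) (hε : 0 < ε) (hε1 : ε < 1) (k : ℕ) (hk : 1 ≤ k) (hL : L = log k)
    (h3 : 3 ≤ L) (h4 : 3 * log L ≤ L ^ (ε / 2)) (h5 : 6 * log 2 / ε ≤ log L) :
    ∃ m X : ℕ, 1 ≤ X ∧
      1 / ((X : ℝ) + 1) + (∑ e ∈ Icc 1 X, (e : ℝ)⁻¹) ^ (2 ^ m - 1) / (k + 1 : ℝ) ^ m ≤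
        exp (-((1 - ε) * (L * log L / log 2))) := by
  have hlog2 : 0 < log 2 := log_pos (by norm_num)
  have hlog2' : (1 : ℝ) / 2 ≤ log 2 := by have := log_two_gt_d9; linarith
  have hL0 : 0 < L := by linarith
  have hℓ0 : 0 < log L := log_pos (by linarith)
  have hℓL : log L ≤ L := (log_le_sub_one_of_pos hL0).trans (by linarith)
  have hk0 : (0 : ℝ) < k := by exact_mod_cast hk
  set m := ⌊(1 - ε / 2) * log L / log 2⌋₊ with hm
  have hm0 : 0 ≤ (1 - ε / 2) * log L / log 2 :=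
    div_nonneg (mul_nonneg (by linarith) hℓ0.le) hlog2.le
  have hm1 : (m : ℝ) ≤ (1 - ε / 2) * log L / log 2 := Nat.floor_le hm0
  have hm2 : (1 - ε / 2) * log L / log 2 - 1 ≤ m := by
    have := Nat.lt_floor_add_one ((1 - ε / 2) * log L / log 2)
    rw [← hm] at this
    linarith
  refine ⟨m, k ^ m, Nat.one_le_pow _ _ hk, ?_⟩
  have hkm : (0 : ℝ) < (k : ℝ) ^ m := by positivity
  have hexp : ((k : ℝ) ^ m)⁻¹ = exp (-(m * L)) := by
    rw [exp_neg, hL, ← Real.log_pow, exp_log hkm]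
  have hH1 := harm_le k m hk
  have hH2 := one_le_harm (k ^ m) (Nat.one_le_pow _ _ hk)
  rw [← hL] at hH1
  set H := ∑ e ∈ Icc 1 (k ^ m), (e : ℝ)⁻¹ with hH
  have hmL : (m : ℝ) ≤ 2 * log L := by
    refine hm1.trans ?_
    rw [div_le_iff₀ hlog2]
    nlinarith
  have h6 : 1 + (m : ℝ) * L ≤ L ^ 3 := by
    have h7 : (m : ℝ) * L ≤ 2 * L * L := by
      apply mul_le_mul_of_nonneg_right _ hL0.le
      linarith
    nlinarith [mul_pos hL0 hL0, mul_pos (mul_pos hL0 hL0) hL0]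
  have h7 : H ≤ L ^ 3 := hH1.trans h6
  have h8 : H ^ (2 ^ m - 1) ≤ exp L := by
    calc H ^ (2 ^ m - 1) ≤ H ^ (2 ^ m) := pow_le_pow_right₀ hH2 (Nat.sub_le _ _)
      _ ≤ (L ^ 3) ^ (2 ^ m) := pow_le_pow_left₀ (by linarith) h7 _
      _ = exp (2 ^ m * (3 * log L)) := by
          rw [← exp_log (show (0 : ℝ) < (L ^ 3) ^ (2 ^ m) by positivity), Real.log_pow,
            Real.log_pow]
          push_cast
          rfl
      _ ≤ exp L := by
          apply exp_le_exp.2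
          have h9 : (2 : ℝ) ^ m ≤ L ^ (1 - ε / 2) := by
            rw [rpow_def_of_pos hL0, ← exp_log (show (0 : ℝ) < 2 ^ m by positivity),
              Real.log_pow]
            apply exp_le_exp.2
            calc (m : ℝ) * log 2 ≤ ((1 - ε / 2) * log L / log 2) * log 2 :=
                  mul_le_mul_of_nonneg_right hm1 hlog2.le
              _ = log L * (1 - ε / 2) := by field_simp
          calc (2 : ℝ) ^ m * (3 * log L) ≤ L ^ (1 - ε / 2) * L ^ (ε / 2) :=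
                mul_le_mul h9 h4 (by positivity) (by positivity)
            _ = L := by rw [← rpow_add hL0]; simp
  have h9 : 1 / (((k ^ m : ℕ) : ℝ) + 1) ≤ exp (-(m * L)) := by
    rw [← hexp, one_div]
    apply inv_anti₀ hkm
    push_cast
    linarith
  have h10 : H ^ (2 ^ m - 1) / (k + 1 : ℝ) ^ m ≤ exp L * exp (-(m * L)) := by
    rw [div_eq_mul_inv, ← hexp]
    apply mul_le_mul h8 _ (by positivity) (exp_pos _).le
    apply inv_anti₀ hkm
    exact pow_le_pow_left₀ hk0.le (by linarith) _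
  have h11 : 1 + exp L ≤ exp (2 * L) := by
    have h12 : 1 ≤ exp L - 1 := by have := add_one_le_exp L; linarith
    have h13 : exp (2 * L) = exp L * exp L := by rw [← exp_add]; ring_nf
    rw [h13]
    nlinarith [exp_pos L]
  calc _ ≤ exp (-(m * L)) + exp L * exp (-(m * L)) := add_le_add h9 h10
    _ = (1 + exp L) * exp (-(m * L)) := by ring
    _ ≤ exp (2 * L) * exp (-(m * L)) := mul_le_mul_of_nonneg_right h11 (exp_pos _).le
    _ = exp (2 * L - m * L) := by rw [← exp_add]; ring_nf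
    _ ≤ _ := by
        apply exp_le_exp.2
        have h12 : ((1 - ε / 2) * log L / log 2 - 1) * L ≤ m * L :=
          mul_le_mul_of_nonneg_right hm2 hL0.le
        have h13 : 6 * log 2 ≤ ε * log L := by
          rw [div_le_iff₀ hε] at h5; linarith
        have h14 : 3 * L ≤ (ε / 2) * (L * log L / log 2) := by
          rw [mul_div_assoc', le_div_iff₀ hlog2]
          nlinarith
        have h15 : ((1 - ε / 2) * log L / log 2 - 1) * L =
            (1 - ε / 2) * (L * log L / log 2) - L := by ring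
        rw [h15] at h12
        nlinarith

theorem lowerA (ε : ℝ) (hε : 0 < ε) (hε1 : ε < 1) : ∃ K : ℕ, ∀ k ≥ K, ∀ n : ℕ,
    ∃ A ⊆ Icc 1 n, (∀ a ∈ A, (A.filter (fun b => b ≠ a ∧ b ∣ a)).card < k) ∧
      (n : ℝ) * (1 - exp (-((1 - ε) * (log k * log (log k) / log 2)))) ≤ A.card := by
  have hT : Tendsto (fun k : ℕ => log (k : ℝ)) atTop atTop :=
    tendsto_log_atTop.comp tendsto_natCast_atTop_atTop
  have e1 : ∀ᶠ L : ℝ in atTop, 3 ≤ L := eventually_ge_atTop 3
  have e2 : ∀ᶠ L : ℝ in atTop, 3 * log L ≤ L ^ (ε / 2) := by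
    have h1 := (isLittleO_log_rpow_atTop (half_pos hε)).bound (show (0 : ℝ) < 1 / 3 by norm_num)
    filter_upwards [h1, eventually_ge_atTop 1] with L h2 h3
    rw [norm_of_nonneg (log_nonneg h3), norm_of_nonneg (rpow_nonneg (by linarith) _)] at h2
    linarith
  have e3 : ∀ᶠ L : ℝ in atTop, 6 * log 2 / ε ≤ log L :=
    tendsto_log_atTop.eventually_ge_atTop _
  obtain ⟨K, hK⟩ := (hT.eventually (e1.and (e2.and e3))).exists_forall_of_atTop
  refine ⟨max K 1, fun k hk n => ?_⟩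
  obtain ⟨h1, h2, h3⟩ := hK k (le_trans (le_max_left _ _) hk)
  have hk1 : 1 ≤ k := le_trans (le_max_right _ _) hk
  obtain ⟨m, X, hX, h4⟩ := estA ε (log k) hε hε1 k hk1 rfl h1 h2 h3
  obtain ⟨A, hA1, hA2, hA3⟩ := exists_large X n k m hX hk1
  refine ⟨A, hA1, hA2, le_trans ?_ hA3⟩
  apply mul_le_mul_of_nonneg_left _ (Nat.cast_nonneg _)
  linarith

end Pool.Agent.TH444.MF
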