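import Mathlib
import Pool.Agent.TH444.MF.Asym

/-!
Asymptotics of the upper bound for `g`.
-/

set_option autoImplicit false
open Finset Filter Real

namespace Pool.Agent.TH444.MF

theorem estB (ε L : ℝ) (hε : 0 < ε) (hε1 : ε < 1) (k : ℕ) (hk : 1 ≤ k) (hL : L = log k)
    (h6 : 6 ≤ L) (h5 : 22 * log 2 / ε ≤ log L) (Y₀ : ℝ)
    (hY₀ : ∀ Y : ℝ, Y₀ ≤ Y → 2 * Y ^ (1 / (1 + ε / 4)) * log Y + log (Y + 1) ≤ Y * log 2)
    (hLY : Y₀ ≤ L ^ (1 + ε / 4)) :
    ∃ r y : ℕ, r ≤ Nat.primeCounting y ∧ k + 1 ≤ 2 ^ r ∧ 0 < y ∧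
      2 * 2 ^ r * (y : ℝ) ^ r ≤ exp ((1 + ε) * (L * log L / log 2)) := by
  have hlog2 : 0 < log 2 := log_pos (by norm_num)
  have hlog2a : 0.693 ≤ log 2 := by have := log_two_gt_d9; linarith
  have hlog2b : log 2 ≤ 0.694 := by have := log_two_lt_d9; linarith
  have hL0 : 0 < L := by linarith
  have hℓ0 : 0 < log L := log_pos (by linarith)
  have hℓL : log L ≤ L := (log_le_sub_one_of_pos hL0).trans (by linarith)
  have hk0 : (0 : ℝ) < k := by exact_mod_cast hk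
  have ha0 : 0 < 1 + ε / 4 := by linarith
  -- r
  set r := ⌊log (k + 1) / log 2⌋₊ + 1 with hr
  have hlk0 : 0 ≤ log ((k : ℝ) + 1) := log_nonneg (by linarith)
  have hr1 : log ((k : ℝ) + 1) < r * log 2 := by
    have h1 := Nat.lt_floor_add_one (log ((k : ℝ) + 1) / log 2)
    rw [div_lt_iff₀ hlog2] at h1
    rw [hr]
    push_cast
    exact h1
  have hlk : log ((k : ℝ) + 1) ≤ L + 1 := by
    have h1 : (k : ℝ) + 1 ≤ exp 1 * k := by
      have h2 : 2 ≤ exp 1 := by have := add_one_le_exp (1 : ℝ); linarith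
      have h3 : (1 : ℝ) ≤ k := by exact_mod_cast hk
      nlinarith
    calc log ((k : ℝ) + 1) ≤ log (exp 1 * k) := log_le_log (by linarith) h1
      _ = L + 1 := by rw [log_mul (exp_pos 1).ne' hk0.ne', log_exp, hL]; ring
  have hr2 : (r : ℝ) ≤ L / log 2 + 3 := by
    have h1 : ((⌊log ((k : ℝ) + 1) / log 2⌋₊ : ℕ) : ℝ) ≤ log ((k : ℝ) + 1) / log 2 :=
      Nat.floor_le (div_nonneg hlk0 hlog2.le)
    have h2 : log ((k : ℝ) + 1) / log 2 ≤ (L + 1) / log 2 :=
      div_le_div_of_nonneg_right hlk hlog2.le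
    have h3 : (L + 1) / log 2 ≤ L / log 2 + 2 := by
      rw [add_div]
      have : 1 / log 2 ≤ 2 := by rw [div_le_iff₀ hlog2]; linarith
      linarith
    rw [hr]
    push_cast
    linarith
  have hr3 : (r : ℝ) ≤ 2 * L := by
    refine hr2.trans ?_
    have h1 : L / log 2 ≤ 1.45 * L := by
      rw [div_le_iff₀ hlog2]
      nlinarith
    linarith
  -- y
  set y := ⌈L ^ (1 + ε / 4)⌉₊ with hy
  have hLp : 1 ≤ L ^ (1 + ε / 4) := one_le_rpow (by linarith) ha0.le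
  have hy1 : L ^ (1 + ε / 4) ≤ (y : ℝ) := Nat.le_ceil _
  have hy2 : (y : ℝ) ≤ 2 * L ^ (1 + ε / 4) := by
    have := Nat.ceil_lt_add_one (show 0 ≤ L ^ (1 + ε / 4) by linarith)
    rw [← hy] at this
    linarith
  have hLy : L ≤ (y : ℝ) := by
    refine le_trans ?_ hy1
    calc L = L ^ (1 : ℝ) := (rpow_one L).symm
      _ ≤ _ := rpow_le_rpow_of_exponent_le (by linarith) (by linarith)
  have hy0 : (1 : ℝ) < y := by linarith
  have hlogy : 0 < log (y : ℝ) := log_pos hy0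
  refine ⟨r, y, ?_, ?_, by exact_mod_cast (by linarith : (0 : ℝ) < y), ?_⟩
  · have h1 := Chebyshev.pi_ge y
    have h2 := hY₀ y (hLY.trans hy1)
    have h3 : L ≤ (y : ℝ) ^ (1 / (1 + ε / 4)) := by
      calc L = (L ^ (1 + ε / 4)) ^ (1 / (1 + ε / 4)) := by
            rw [← rpow_mul hL0.le, mul_one_div_cancel ha0.ne', rpow_one]
        _ ≤ _ := rpow_le_rpow (by positivity) hy1 (by positivity)
    have h4 : (2 * L : ℝ) ≤ (y * log 2 - log (y + 1)) / log y := by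
      rw [le_div_iff₀ hlogy]
      have h5 : 2 * L * log (y : ℝ) ≤ 2 * (y : ℝ) ^ (1 / (1 + ε / 4)) * log y := by
        apply mul_le_mul_of_nonneg_right _ hlogy.le
        linarith
      linarith
    have h5 : (r : ℝ) ≤ (Nat.primeCounting y : ℝ) := by linarith
    exact_mod_cast h5
  · have h1 : ((k : ℝ) + 1) ≤ (2 : ℝ) ^ r := by
      rw [← exp_log (show (0 : ℝ) < 2 ^ r by positivity), Real.log_pow,
        ← exp_log (show (0 : ℝ) < (k : ℝ) + 1 by linarith)]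
      exact exp_le_exp.2 hr1.le
    exact_mod_cast h1
  · have hlogy2 : log (y : ℝ) ≤ 1 + (1 + ε / 4) * log L := by
      calc log (y : ℝ) ≤ log (2 * L ^ (1 + ε / 4)) := log_le_log (by linarith) hy2
        _ = log 2 + (1 + ε / 4) * log L := by
            rw [log_mul (by norm_num) (by positivity), log_rpow hL0]
        _ ≤ _ := by linarith
    have hpos : (0 : ℝ) < 2 * 2 ^ r * (y : ℝ) ^ r := by positivity
    rw [← exp_log hpos]
    apply exp_le_exp.2
    rw [log_mul (by positivity) (by positivity), log_mul (by norm_num) (by positivity),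
      Real.log_pow, Real.log_pow]
    have hr0 : (0 : ℝ) ≤ r := Nat.cast_nonneg _
    have h1 : (r : ℝ) * log 2 ≤ r := by nlinarith
    have h2 : (r : ℝ) * log y ≤ (L / log 2 + 3) * (1 + (1 + ε / 4) * log L) :=
      mul_le_mul hr2 hlogy2 hlogy.le (by positivity)
    have h3 : (L / log 2 + 3) * (1 + (1 + ε / 4) * log L) =
        (1 + ε / 4) * (L * log L / log 2) + L / log 2 + 3 + 3 * ((1 + ε / 4) * log L) := by ring
    have h4 : L / log 2 ≤ 2 * L := by
      rw [div_le_iff₀ hlog2]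
      nlinarith
    have h5' : 22 * log 2 ≤ ε * log L := by
      rw [div_le_iff₀ hε] at h5; linarith
    have h7 : 16 * L ≤ (3 * ε / 4) * (L * log L / log 2) := by
      rw [mul_div_assoc', le_div_iff₀ hlog2]
      nlinarith
    have h8 : (1 + ε / 4) * log L ≤ 1.25 * L := by nlinarith
    have h9 : (1 + ε) * (L * log L / log 2) = (1 + ε / 4) * (L * log L / log 2) +
        (3 * ε / 4) * (L * log L / log 2) := by ring
    rw [h9]
    linarith

theorem event (b : ℝ) (hb : 0 < b) (hb1 : b < 1) :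
    ∀ᶠ Y : ℝ in atTop, 2 * Y ^ b * log Y + log (Y + 1) ≤ Y * log 2 := by
  have hlog2' : (1 : ℝ) / 2 ≤ log 2 := by have := log_two_gt_d9; linarith
  have h1 := (isLittleO_log_rpow_atTop (show (0 : ℝ) < 1 - b by linarith)).bound
    (show (0 : ℝ) < 1 / 8 by norm_num)
  have h2 := (isLittleO_log_rpow_atTop (show (0 : ℝ) < 1 by norm_num)).bound
    (show (0 : ℝ) < 1 / 8 by norm_num)
  have h2' : ∀ᶠ Y : ℝ in atTop, ‖log (Y + 1)‖ ≤ 1 / 8 * ‖(Y + 1) ^ (1 : ℝ)‖ :=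
    (tendsto_atTop_add_const_right atTop (1 : ℝ) tendsto_id).eventually h2
  filter_upwards [h1, h2', eventually_ge_atTop 1] with Y h3 h4 h5
  rw [norm_of_nonneg (log_nonneg h5), norm_of_nonneg (rpow_nonneg (by linarith) _)] at h3
  rw [norm_of_nonneg (log_nonneg (by linarith)), norm_of_nonneg (rpow_nonneg (by linarith) _),
    rpow_one] at h4
  have h6 : Y ^ b * Y ^ (1 - b) = Y := by
    rw [← rpow_add (by linarith)]; simp
  have h7 : 0 ≤ Y ^ b := rpow_nonneg (by linarith) _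
  have h8 : 2 * Y ^ b * log Y ≤ Y / 4 := by
    calc 2 * Y ^ b * log Y ≤ 2 * Y ^ b * (1 / 8 * Y ^ (1 - b)) :=
          mul_le_mul_of_nonneg_left h3 (by positivity)
      _ = (Y ^ b * Y ^ (1 - b)) / 4 := by ring
      _ = Y / 4 := by rw [h6]
  nlinarith

theorem upperB (ε : ℝ) (hε : 0 < ε) (hε1 : ε < 1) : ∃ K : ℕ, ∀ k ≥ K, ∃ n₀ : ℕ, ∀ n ≥ n₀,
    ∀ A ⊆ Icc 1 n, (∀ a ∈ A, (A.filter (fun b => b ≠ a ∧ b ∣ a)).card < k) →
      (A.card : ℝ) ≤ n * (1 - exp (-((1 + ε) * (log k * log (log k) / log 2)))) := by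
  have hT : Tendsto (fun k : ℕ => log (k : ℝ)) atTop atTop :=
    tendsto_log_atTop.comp tendsto_natCast_atTop_atTop
  have hb : (1 : ℝ) / (1 + ε / 4) < 1 := by
    rw [div_lt_one (by linarith)]; linarith
  obtain ⟨Y₀, hY₀⟩ := (event (1 / (1 + ε / 4)) (by positivity) hb).exists_forall_of_atTop
  have e1 : ∀ᶠ L : ℝ in atTop, 6 ≤ L := eventually_ge_atTop 6
  have e2 : ∀ᶠ L : ℝ in atTop, Y₀ ≤ L ^ (1 + ε / 4) :=
    (tendsto_rpow_atTop (by linarith)).eventually_ge_atTop _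
  have e3 : ∀ᶠ L : ℝ in atTop, 22 * log 2 / ε ≤ log L :=
    tendsto_log_atTop.eventually_ge_atTop _
  obtain ⟨K, hK⟩ := (hT.eventually (e1.and (e2.and e3))).exists_forall_of_atTop
  refine ⟨max K 1, fun k hk => ?_⟩
  obtain ⟨h1, h2, h3⟩ := hK k (le_trans (le_max_left _ _) hk)
  have hk1 : 1 ≤ k := le_trans (le_max_right _ _) hk
  obtain ⟨r, y, hr, hkr, hy0, hle⟩ := estB ε (log k) hε hε1 k hk1 rfl h1 h3 Y₀ hY₀ h2
  obtain ⟨n₀, hn₀⟩ := upper_bound k r y hr hkr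
  refine ⟨n₀, fun n hn A hA1 hA2 => (hn₀ n hn A hA1 hA2).trans ?_⟩
  apply mul_le_mul_of_nonneg_left _ (Nat.cast_nonneg _)
  have hy0' : (0 : ℝ) < y := by exact_mod_cast hy0
  have h4 : exp (-((1 + ε) * (log k * log (log k) / log 2))) ≤
      1 / (2 * 2 ^ r * (y : ℝ) ^ r) := by
    rw [exp_neg, one_div]
    exact inv_anti₀ (by positivity) hle
  linarith

end Pool.Agent.TH444.MF
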