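import Mathlib
import Pool.Agent.TH444.MF.Upper

/-!
Existence of the limit of `g k n / n`: decomposition into smooth and rough parts.
-/

set_option autoImplicit false
open Finset Filter Topology

namespace Pool.Agent.TH444.MF

/-- `k`-multiple-free -/
def MF (k : ℕ) (A : Finset ℕ) : Prop := ∀ a ∈ A, (A.filter (fun b => b ≠ a ∧ b ∣ a)).card < k

/-- all prime factors of `s` divide `P` -/
def Sm (P s : ℕ) : Prop := ∃ j, s ∣ P ^ j

theorem decomp (P : ℕ) (hP : 0 < P) : ∀ a : ℕ, 0 < a → ∃ t s, a = t * s ∧ P.Coprime t ∧ Sm P s := by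
  intro a
  induction a using Nat.strong_induction_on with
  | _ a ih =>
    intro ha
    by_cases h : P.Coprime a
    · exact ⟨a, 1, by simp, h, 0, by simp⟩
    · have hd : 1 < P.gcd a := by
        have h1 : 0 < P.gcd a := Nat.gcd_pos_of_pos_left _ hP
        have h2 : P.gcd a ≠ 1 := h
        omega
      obtain ⟨c, hc⟩ := Nat.gcd_dvd_right P a
      have hc0 : 0 < c := by
        rcases Nat.eq_zero_or_pos c with h0 | h0
        · rw [h0, mul_zero] at hc; omega
        · exact h0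
      have hca : c < a := by
        calc c = 1 * c := (one_mul c).symm
          _ < P.gcd a * c := Nat.mul_lt_mul_of_pos_right hd hc0
          _ = a := hc.symm
      obtain ⟨t, s, h1, h2, j, h3⟩ := ih c hca hc0
      refine ⟨t, s * P.gcd a, ?_, h2, j + 1, ?_⟩
      · calc a = P.gcd a * c := hc
          _ = P.gcd a * (t * s) := by rw [← h1]
          _ = _ := by ring
      · rw [pow_succ]
        exact Nat.mul_dvd_mul h3 (Nat.gcd_dvd_left _ _)

theorem unique {P t t' s s' : ℕ} (ht : P.Coprime t) (ht' : P.Coprime t') (hs : Sm P s)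
    (hs' : Sm P s') (ht0 : 0 < t) (h : t * s = t' * s') : t = t' ∧ s = s' := by
  obtain ⟨j, hj⟩ := hs
  obtain ⟨j', hj'⟩ := hs'
  have h1 : t.Coprime s' := Nat.Coprime.coprime_dvd_right hj' (ht.symm.pow_right j')
  have h2 : t'.Coprime s := Nat.Coprime.coprime_dvd_right hj (ht'.symm.pow_right j)
  have h3 : t ∣ t' := by
    apply h1.dvd_of_dvd_mul_right
    exact h ▸ Dvd.intro _ rfl
  have h4 : t' ∣ t := by
    apply h2.dvd_of_dvd_mul_right
    exact h.symm ▸ Dvd.intro _ rfl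
  have h5 := Nat.dvd_antisymm h3 h4
  subst h5
  exact ⟨rfl, Nat.eq_of_mul_eq_mul_left ht0 h⟩

/-- largest size of a `k`-multiple-free set of smooth numbers up to `u` -/
noncomputable def hh (k P u : ℕ) : ℕ :=
  sSup {m | ∃ B ⊆ Icc 1 u, MF k B ∧ (∀ b ∈ B, Sm P b) ∧ B.card = m}

theorem hh_bdd (k P u : ℕ) :
    BddAbove {m | ∃ B ⊆ Icc 1 u, MF k B ∧ (∀ b ∈ B, Sm P b) ∧ B.card = m} := by
  refine ⟨u, ?_⟩
  rintro m ⟨A, hA, -, -, rfl⟩
  have := card_le_card hA
  rwa [Nat.card_Icc, Nat.add_sub_cancel] at this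

theorem le_hh {k P u : ℕ} {B : Finset ℕ} (hB : B ⊆ Icc 1 u) (h : MF k B)
    (hs : ∀ b ∈ B, Sm P b) : B.card ≤ hh k P u := le_csSup (hh_bdd k P u) ⟨B, hB, h, hs, rfl⟩

theorem exists_hh (k P u : ℕ) :
    ∃ B ⊆ Icc 1 u, MF k B ∧ (∀ b ∈ B, Sm P b) ∧ B.card = hh k P u := by
  have h := Nat.sSup_mem (s := {m | ∃ B ⊆ Icc 1 u, MF k B ∧ (∀ b ∈ B, Sm P b) ∧ B.card = m})
    ⟨0, ∅, by simp, by intro a ha; simp at ha, by simp, by simp⟩ (hh_bdd k P u)
  exact h

theorem MF_subset {k : ℕ} {A B : Finset ℕ} (h : MF k A) (hB : B ⊆ A) : MF k B := by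
  intro a ha
  refine lt_of_le_of_lt (card_le_card ?_) (h a (hB ha))
  exact filter_subset_filter _ hB

theorem hh_zero (k P : ℕ) : hh k P 0 = 0 := by
  obtain ⟨B, hB, -, -, hc⟩ := exists_hh k P 0
  rw [← hc]
  have : B = ∅ := by
    apply subset_empty.1
    simpa using hB
  simp [this]

theorem hh_mono (k P u : ℕ) : hh k P u ≤ hh k P (u + 1) := by
  obtain ⟨B, hB, h1, h2, hc⟩ := exists_hh k P u
  rw [← hc]
  exact le_hh (hB.trans (Icc_subset_Icc_right (Nat.le_succ u))) h1 h2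

theorem hh_succ_le (k P u : ℕ) : hh k P (u + 1) ≤ hh k P u + 1 := by
  obtain ⟨B, hB, h1, h2, hc⟩ := exists_hh k P (u + 1)
  have h3 : (B.erase (u + 1)).card ≤ hh k P u := by
    apply le_hh _ (MF_subset h1 (erase_subset _ _)) (fun b hb => h2 b (mem_of_mem_erase hb))
    intro b hb
    have h4 := mem_erase.1 hb
    have h5 := mem_Icc.1 (hB h4.2)
    rw [mem_Icc]
    omega
  have h4 := pred_card_le_card_erase (s := B) (a := u + 1)
  omega

theorem hh_succ_of_not (k P u : ℕ) (hu : ¬ Sm P (u + 1)) : hh k P (u + 1) = hh k P u := by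
  apply le_antisymm _ (hh_mono k P u)
  obtain ⟨B, hB, h1, h2, hc⟩ := exists_hh k P (u + 1)
  rw [← hc]
  apply le_hh _ h1 h2
  intro b hb
  have h5 := mem_Icc.1 (hB hb)
  have h6 : b ≠ u + 1 := by
    rintro rfl
    exact hu (h2 _ hb)
  rw [mem_Icc]
  omega

/-- rough numbers up to `n` -/
def TT (P n : ℕ) : Finset ℕ := (Icc 1 n).filter (fun t => P.Coprime t)

/-- upper bound for the size of `k`-multiple-free sets -/
theorem card_le_sum (k P n : ℕ) (hP : 0 < P) (A : Finset ℕ) (hA : A ⊆ Icc 1 n) (h : MF k A) :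
    A.card ≤ ∑ t ∈ TT P n, hh k P (n / t) := by
  classical
  have hdec : ∀ a : ℕ, ∃ t s, 0 < a → a = t * s ∧ P.Coprime t ∧ Sm P s := by
    intro a
    rcases Nat.eq_zero_or_pos a with h0 | h0
    · exact ⟨0, 0, fun h => absurd h (by omega)⟩
    · obtain ⟨t, s, h1⟩ := decomp P hP a h0
      exact ⟨t, s, fun _ => h1⟩
  choose τ σ hτ using hdec
  have hpos : ∀ a ∈ A, 0 < a := fun a ha => (mem_Icc.1 (hA ha)).1
  have hτ0 : ∀ a ∈ A, 0 < τ a ∧ 0 < σ a := by
    intro a ha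
    have h1 := (hτ a (hpos a ha)).1
    have h2 := hpos a ha
    constructor
    · rcases Nat.eq_zero_or_pos (τ a) with h0 | h0
      · rw [h0, zero_mul] at h1; omega
      · exact h0
    · rcases Nat.eq_zero_or_pos (σ a) with h0 | h0
      · rw [h0, mul_zero] at h1; omega
      · exact h0
  have hmaps : Set.MapsTo τ (A : Set ℕ) (TT P n : Set ℕ) := by
    intro a ha
    have ha' : a ∈ A := ha
    have h1 := hτ a (hpos a ha')
    have h2 := hτ0 a ha'
    have h3 := mem_Icc.1 (hA ha')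
    have h4 : τ a ≤ a := by
      calc τ a = τ a * 1 := (mul_one _).symm
        _ ≤ τ a * σ a := Nat.mul_le_mul_left _ h2.2
        _ = a := h1.1.symm
    simp only [TT, coe_filter, Set.mem_ofPred_eq, mem_Icc]
    exact ⟨⟨h2.1, h4.trans h3.2⟩, h1.2.1⟩
  rw [card_eq_sum_card_fiberwise hmaps]
  apply sum_le_sum
  intro t ht
  have ht' := mem_filter.1 ht
  have ht0 : 0 < t := (mem_Icc.1 ht'.1).1
  have hinj : Set.InjOn σ ((A.filter (fun a => τ a = t) : Finset ℕ) : Set ℕ) := by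
    intro a ha b hb hab
    simp only [coe_filter, Set.mem_ofPred_eq] at ha hb
    rw [(hτ a (hpos a ha.1)).1, (hτ b (hpos b hb.1)).1, ha.2, hb.2, hab]
  rw [← card_image_of_injOn hinj]
  apply le_hh
  · intro s hs
    obtain ⟨a, ha, rfl⟩ := mem_image.1 hs
    have ha' := mem_filter.1 ha
    have h1 := hτ a (hpos a ha'.1)
    have h2 := mem_Icc.1 (hA ha'.1)
    rw [mem_Icc]
    refine ⟨(hτ0 a ha'.1).2, (Nat.le_div_iff_mul_le ht0).2 ?_⟩
    rw [mul_comm, ← ha'.2, ← h1.1]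
    exact h2.2
  · intro s hs
    obtain ⟨a, ha, rfl⟩ := mem_image.1 hs
    have ha' := mem_filter.1 ha
    refine lt_of_le_of_lt ?_ (h a ha'.1)
    apply card_le_card_of_injOn (fun s => t * s)
    · intro s' hs'
      simp only [coe_filter, Set.mem_ofPred_eq, mem_image, mem_filter] at hs' ⊢
      obtain ⟨⟨b, ⟨hb1, hb2⟩, rfl⟩, h3, h4⟩ := hs'
      have h5 : b = t * σ b := by rw [← hb2]; exact (hτ b (hpos b hb1)).1
      have h6 : a = t * σ a := by rw [← ha'.2]; exact (hτ a (hpos a ha'.1)).1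
      rw [← h5]
      refine ⟨hb1, ?_, ?_⟩
      · rintro rfl
        exact h3 rfl
      · rw [h5, h6]
        exact Nat.mul_dvd_mul_left _ h4
    · intro s _ s' _ hss
      exact Nat.eq_of_mul_eq_mul_left ht0 hss
  · intro s hs
    obtain ⟨a, ha, rfl⟩ := mem_image.1 hs
    exact (hτ a (hpos a (mem_filter.1 ha).1)).2.2

/-- lower bound -/
theorem exists_big (k x n : ℕ) : ∃ A ⊆ Icc 1 n, MF k A ∧
    ∑ t ∈ TT x.factorial n, hh k x.factorial (n / t) ≤ A.card + n / (x + 1) := by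
  classical
  set P := x.factorial with hP
  choose B hB1 hB2 hB3 hB4 using exists_hh k P
  let S : Finset (Σ _ : ℕ, ℕ) := (TT P n).sigma (fun t => B (n / t))
  let A' : Finset ℕ := S.image (fun p => p.1 * p.2)
  have hS : ∀ p ∈ S, 0 < p.1 ∧ P.Coprime p.1 ∧ p.2 ∈ B (n / p.1) ∧ 0 < p.2 ∧ p.1 * p.2 ≤ n := by
    rintro ⟨t, s⟩ hp
    simp only [S, mem_sigma, TT, mem_filter, mem_Icc] at hp
    have h1 := mem_Icc.1 (hB1 _ hp.2)
    refine ⟨hp.1.1.1, hp.1.2, hp.2, h1.1, ?_⟩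
    rw [mul_comm]
    exact (Nat.le_div_iff_mul_le hp.1.1.1).1 h1.2
  have hinj : Set.InjOn (fun p : (Σ _ : ℕ, ℕ) => p.1 * p.2) (S : Set (Σ _ : ℕ, ℕ)) := by
    rintro ⟨t, s⟩ hp ⟨t', s'⟩ hp' h
    have h1 := hS _ hp
    have h2 := hS _ hp'
    obtain ⟨h3, h4⟩ := unique h1.2.1 h2.2.1 (hB3 _ _ h1.2.2.1) (hB3 _ _ h2.2.2.1) h1.1 h
    simp only at h3 h4
    subst h3
    subst h4
    rfl
  have hA'c : A'.card = ∑ t ∈ TT P n, hh k P (n / t) := by
    rw [card_image_of_injOn hinj, card_sigma]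
    exact sum_congr rfl (fun t _ => hB4 _)
  refine ⟨A'.filter (fun a => n < a * (x + 1)), ?_, ?_, ?_⟩
  · intro a ha
    obtain ⟨p, hp, rfl⟩ := mem_image.1 (mem_filter.1 ha).1
    have h1 := hS p hp
    exact mem_Icc.2 ⟨Nat.mul_pos h1.1 h1.2.2.2.1, h1.2.2.2.2⟩
  · intro a ha
    have ha2 := (mem_filter.1 ha).2
    obtain ⟨⟨t, s⟩, hp, rfl⟩ := mem_image.1 (mem_filter.1 ha).1
    have h1 := hS _ hp
    simp only at h1 ha2
    have hts0 : 0 < t * s := Nat.mul_pos h1.1 h1.2.2.2.1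
    refine lt_of_le_of_lt ?_ (hB2 (n / t) s h1.2.2.1)
    have key : ∀ b ∈ (A'.filter (fun a => n < a * (x + 1))).filter
        (fun b => b ≠ t * s ∧ b ∣ t * s), ∃ s', b = t * s' ∧ s' ∈ B (n / t) ∧ s' ∣ s := by
      intro b hb
      simp only [mem_filter] at hb
      obtain ⟨⟨hb1, hb2⟩, hb3, d, hd⟩ := hb
      obtain ⟨⟨t', s'⟩, hp', rfl⟩ := mem_image.1 hb1
      have h2 := hS _ hp'
      simp only at h2 hd hb2
      have hdx : d ≤ x := by
        by_contra hc
        push Not at hc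
        have h3 : t' * s' * (x + 1) ≤ t' * s' * d := Nat.mul_le_mul_left _ hc
        rw [← hd] at h3
        have := h1.2.2.2.2
        omega
      have hd0 : 0 < d := by
        rcases Nat.eq_zero_or_pos d with h0 | h0
        · rw [h0, mul_zero] at hd; omega
        · exact h0
      have hsm : Sm P (s' * d) := by
        obtain ⟨j, hj⟩ := hB3 _ _ h2.2.2.1
        exact ⟨j + 1, by rw [pow_succ]; exact Nat.mul_dvd_mul hj (Nat.dvd_factorial hd0 hdx)⟩
      obtain ⟨h4, h5⟩ := unique h1.2.1 h2.2.1 (hB3 _ _ h1.2.2.1) hsm h1.1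
        (by rw [hd]; ring)
      subst h4
      exact ⟨s', rfl, h2.2.2.1, ⟨d, h5⟩⟩
    choose! f hf using key
    apply card_le_card_of_injOn f
    · intro b hb
      have h2 := hf b hb
      simp only [coe_filter, Set.mem_ofPred_eq]
      refine ⟨h2.2.1, ?_, h2.2.2⟩
      intro h3
      have h4 := (mem_filter.1 (mem_coe.1 hb)).2.1
      apply h4
      rw [h2.1, h3]
    · intro b hb b' hb' h2
      rw [(hf b hb).1, (hf b' hb').1, h2]
  · rw [← hA'c]
    have h1 : A'.card = (A'.filter (fun a => n < a * (x + 1))).card +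
        (A'.filter (fun a => ¬ n < a * (x + 1))).card :=
      (card_filter_add_card_filter_not _).symm
    have h2 : (A'.filter (fun a => ¬ n < a * (x + 1))).card ≤ n / (x + 1) := by
      refine le_trans (card_le_card (t := Icc 1 (n / (x + 1))) ?_) (by simp)
      intro a ha
      obtain ⟨p, hp, hpa⟩ := mem_image.1 (mem_filter.1 ha).1
      have h3 := hS p hp
      have h4 := (mem_filter.1 ha).2
      rw [mem_Icc]
      refine ⟨?_, (Nat.le_div_iff_mul_le (by omega)).2 (by omega)⟩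
      rw [← hpa]
      exact Nat.mul_pos h3.1 h3.2.2.2.1
    omega

end Pool.Agent.TH444.MF
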