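import Mathlib
import Pool.Agent.TH444.MF.Limit

/-!
Existence of the limit of `g k n / n`: Tannery's theorem and the Cauchy criterion.
-/

set_option autoImplicit false
open Finset Filter Topology

namespace Pool.Agent.TH444.MF

/-- increments of `hh` -/
noncomputable def dl (k P s : ℕ) : ℝ := (hh k P s : ℝ) - hh k P (s - 1)

theorem dl_zero (k P : ℕ) : dl k P 0 = 0 := by simp [dl]

theorem dl_nonneg (k P s : ℕ) : 0 ≤ dl k P s := by
  rcases Nat.eq_zero_or_pos s with h0 | h0
  · rw [h0, dl_zero]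
  · obtain ⟨u, rfl⟩ : ∃ u, s = u + 1 := ⟨s - 1, by omega⟩
    have h1 := hh_mono k P u
    have h2 : (hh k P u : ℝ) ≤ hh k P (u + 1) := by exact_mod_cast h1
    simp only [dl, Nat.add_sub_cancel]
    linarith

theorem dl_le_one (k P s : ℕ) : dl k P s ≤ 1 := by
  rcases Nat.eq_zero_or_pos s with h0 | h0
  · rw [h0, dl_zero]; norm_num
  · obtain ⟨u, rfl⟩ : ∃ u, s = u + 1 := ⟨s - 1, by omega⟩
    have h1 := hh_succ_le k P u
    have h2 : (hh k P (u + 1) : ℝ) ≤ hh k P u + 1 := by exact_mod_cast h1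
    simp only [dl, Nat.add_sub_cancel]
    linarith

theorem dl_eq_zero (k P s : ℕ) (hs : ¬ Sm P s) : dl k P s = 0 := by
  rcases Nat.eq_zero_or_pos s with h0 | h0
  · rw [h0, dl_zero]
  · obtain ⟨u, rfl⟩ : ∃ u, s = u + 1 := ⟨s - 1, by omega⟩
    simp only [dl, Nat.add_sub_cancel]
    rw [hh_succ_of_not k P u hs, sub_self]

theorem hh_eq_sum (k P u : ℕ) : (hh k P u : ℝ) = ∑ s ∈ Icc 1 u, dl k P s := by
  induction u with
  | zero => simp [hh_zero]
  | succ u ih =>
    rw [sum_Icc_succ_top (by omega), ← ih]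
    simp [dl]

theorem sum_hh (k P n : ℕ) : ∑ t ∈ TT P n, (hh k P (n / t) : ℝ) =
    ∑ s ∈ Icc 1 n, dl k P s * ((TT P (n / s)).card : ℝ) := by
  simp only [hh_eq_sum]
  rw [sum_comm' (t' := Icc 1 n) (s' := fun s => TT P (n / s))]
  · apply sum_congr rfl
    intro s _
    rw [sum_const, nsmul_eq_mul, mul_comm]
  · intro t s
    simp only [TT, mem_filter, mem_Icc]
    constructor
    · rintro ⟨⟨⟨h1, h2⟩, h3⟩, h4, h5⟩
      have h6 : s * t ≤ n := (Nat.le_div_iff_mul_le h1).1 h5
      refine ⟨⟨⟨h1, (Nat.le_div_iff_mul_le h4).2 (by rw [mul_comm]; exact h6)⟩, h3⟩, h4, ?_⟩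
      calc s = s * 1 := (mul_one s).symm
        _ ≤ s * t := Nat.mul_le_mul_left _ h1
        _ ≤ n := h6
    · rintro ⟨⟨⟨h1, h2⟩, h3⟩, h4, h5⟩
      have h6 : t * s ≤ n := (Nat.le_div_iff_mul_le h4).1 h2
      refine ⟨⟨⟨h1, ?_⟩, h3⟩, h4, (Nat.le_div_iff_mul_le h1).2 (by rw [mul_comm]; exact h6)⟩
      calc t = t * 1 := (mul_one t).symm
        _ ≤ t * s := Nat.mul_le_mul_left _ h4
        _ ≤ n := h6

theorem TT_bounds (P m : ℕ) (hP : 0 < P) :
    (m / P) * P.totient ≤ (TT P m).card ∧ (TT P m).card ≤ (m / P + 1) * P.totient := by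
  constructor
  · rw [← count_coprime]
    apply card_le_card
    apply filter_subset_filter
    intro t ht
    have h1 := mem_Ico.1 ht
    have h2 := Nat.div_mul_le_self m P
    rw [mem_Icc]
    omega
  · rw [← count_coprime]
    apply card_le_card
    apply filter_subset_filter
    intro t ht
    have h1 := mem_Icc.1 ht
    have h2 : m < (m / P + 1) * P := by
      have := Nat.lt_div_mul_add (a := m) hP
      rw [add_mul, one_mul]
      omega
    rw [mem_Ico]
    omega

theorem TT_le (P m : ℕ) : (TT P m).card ≤ m := by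
  have := card_filter_le (Icc 1 m) (fun t => P.Coprime t)
  rwa [Nat.card_Icc, Nat.add_sub_cancel] at this

theorem TT_lim (P s : ℕ) (hP : 0 < P) (hs : 0 < s) :
    Tendsto (fun n : ℕ => ((TT P (n / s)).card : ℝ) / n) atTop
      (𝓝 ((P.totient : ℝ) / (P * s))) := by
  rw [tendsto_iff_norm_sub_tendsto_zero]
  have hlim : Tendsto (fun n : ℕ => (P.totient : ℝ) / n) atTop (𝓝 0) :=
    tendsto_const_div_atTop_nhds_zero_nat _
  refine squeeze_zero' (Eventually.of_forall fun n => norm_nonneg _) ?_ hlim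
  filter_upwards [eventually_ge_atTop 1] with n hn
  have hn0 : (0 : ℝ) < n := by exact_mod_cast hn
  have hP0 : (0 : ℝ) < P := by exact_mod_cast hP
  have hs0 : (0 : ℝ) < s := by exact_mod_cast hs
  obtain ⟨h1, h2⟩ := TT_bounds P (n / s) hP
  rw [Nat.div_div_eq_div_mul] at h1 h2
  have h1' : ((n / (s * P) : ℕ) : ℝ) * P.totient ≤ (TT P (n / s)).card := by exact_mod_cast h1
  have h2' : ((TT P (n / s)).card : ℝ) ≤ (((n / (s * P) : ℕ) : ℝ) + 1) * P.totient := by
    exact_mod_cast h2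
  have h3 : ((n / (s * P) : ℕ) : ℝ) ≤ n / (s * P) := by
    have := @Nat.cast_div_le ℝ _ _ _ n (s * P)
    push_cast at this
    exact this
  have h4 : (n : ℝ) / (s * P) < ((n / (s * P) : ℕ) : ℝ) + 1 := by
    rw [div_lt_iff₀ (by positivity)]
    have h5 := Nat.lt_div_mul_add (a := n) (b := s * P) (Nat.mul_pos hs hP)
    have h6 : (n : ℝ) < ((n / (s * P) : ℕ) : ℝ) * (s * P) + s * P := by exact_mod_cast h5
    linarith
  have hφ : (0 : ℝ) ≤ P.totient := Nat.cast_nonneg _
  have h5 : (n : ℝ) / (s * P) * P.totient - P.totient ≤ (TT P (n / s)).card := by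
    nlinarith
  have h6 : ((TT P (n / s)).card : ℝ) ≤ (n : ℝ) / (s * P) * P.totient + P.totient := by
    nlinarith
  have h7 : ((TT P (n / s)).card : ℝ) / n - (P.totient : ℝ) / (P * s) =
      (((TT P (n / s)).card : ℝ) - (n : ℝ) / (s * P) * P.totient) / n := by
    field_simp
  rw [h7, norm_div, Real.norm_of_nonneg hn0.le]
  apply div_le_div_of_nonneg_right _ hn0.le
  rw [Real.norm_eq_abs, abs_le]
  constructor <;> linarith

/-- the map `n ↦ 1/n` -/
noncomputable def invHom : ℕ →* ℝ where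
  toFun n := (n : ℝ)⁻¹
  map_one' := by simp
  map_mul' a b := by push_cast; rw [mul_inv]

theorem summ (x : ℕ) : Summable ((Nat.smoothNumbers (x + 1)).indicator
    (fun s : ℕ => ‖(s : ℝ)⁻¹‖)) := by
  have h := (EulerProduct.summable_and_hasSum_smoothNumbers_prod_primesBelow_geometric
    (f := invHom) (by
      intro p hp
      change ‖(p : ℝ)⁻¹‖ < 1
      have h1 : (1 : ℝ) < p := by exact_mod_cast hp.one_lt
      rw [norm_inv, Real.norm_of_nonneg (by linarith)]
      exact inv_lt_one_of_one_lt₀ h1) (x + 1)).1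
  exact summable_subtype_iff_indicator.1 h

theorem Sm_mem (x s : ℕ) (hs0 : s ≠ 0) (hs : Sm x.factorial s) : s ∈ Nat.smoothNumbers (x + 1) := by
  refine Nat.mem_smoothNumbers.2 ⟨hs0, fun p hp => ?_⟩
  have hpp := Nat.prime_of_mem_primeFactorsList hp
  have hps := Nat.dvd_of_mem_primeFactorsList hp
  obtain ⟨j, hj⟩ := hs
  have h1 := (hpp.dvd_factorial).1 (hpp.dvd_of_dvd_pow (hps.trans hj))
  omega

theorem lim_sum (k x : ℕ) : ∃ C : ℝ, Tendsto
    (fun n : ℕ => (∑ t ∈ TT x.factorial n, (hh k x.factorial (n / t) : ℝ)) / n) atTop (𝓝 C) := by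
  set P := x.factorial with hPdef
  have hP : 0 < P := Nat.factorial_pos x
  have key := tendsto_tsum_of_dominated_convergence
    (f := fun (n : ℕ) (s : ℕ) => dl k P s * (((TT P (n / s)).card : ℝ) / n))
    (g := fun s : ℕ => dl k P s * ((P.totient : ℝ) / (P * s)))
    (𝓕 := atTop) (summ x) ?_ ?_
  · refine ⟨_, key.congr fun n => ?_⟩
    rw [sum_hh, sum_div]
    rw [tsum_eq_sum (s := Icc 1 n)]
    · exact sum_congr rfl (fun s _ => by ring)
    · intro s hs
      rw [mem_Icc] at hs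
      rcases Nat.eq_zero_or_pos s with h0 | h0
      · rw [h0, dl_zero, zero_mul]
      · have h1 : n / s = 0 := Nat.div_eq_of_lt (by omega)
        have h2 : (TT P (n / s)).card = 0 := by
          have := TT_le P (n / s)
          omega
        rw [h2]
        simp
  · intro s
    rcases Nat.eq_zero_or_pos s with h0 | h0
    · subst h0
      simp only [dl_zero, zero_mul]
      exact tendsto_const_nhds
    · exact (TT_lim P s hP h0).const_mul _
  · filter_upwards [eventually_ge_atTop 1] with n hn s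
    have hn0 : (0 : ℝ) < n := by exact_mod_cast hn
    by_cases hs : s ≠ 0 ∧ Sm P s
    · rw [Set.indicator_of_mem (Sm_mem x s hs.1 hs.2)]
      have hs0 : (0 : ℝ) < s := by exact_mod_cast Nat.pos_of_ne_zero hs.1
      have h1 : ((TT P (n / s)).card : ℝ) ≤ n / s := by
        refine le_trans ?_ (Nat.cast_div_le (m := n) (n := s))
        exact_mod_cast TT_le P (n / s)
      have h2 : ((TT P (n / s)).card : ℝ) / n ≤ (s : ℝ)⁻¹ := by
        rw [div_le_iff₀ hn0]
        calc ((TT P (n / s)).card : ℝ) ≤ n / s := h1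
          _ = (s : ℝ)⁻¹ * n := by rw [div_eq_mul_inv, mul_comm]
      have h3 : 0 ≤ ((TT P (n / s)).card : ℝ) / n := by positivity
      rw [Real.norm_of_nonneg (mul_nonneg (dl_nonneg _ _ _) h3), Real.norm_of_nonneg (by positivity)]
      calc dl k P s * (((TT P (n / s)).card : ℝ) / n) ≤ 1 * (s : ℝ)⁻¹ :=
            mul_le_mul (dl_le_one _ _ _) h2 h3 zero_le_one
        _ = _ := one_mul _
    · have h1 : dl k P s = 0 := by
        by_cases h0 : s = 0
        · rw [h0, dl_zero]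
        · exact dl_eq_zero _ _ _ (fun h => hs ⟨h0, h⟩)
      rw [h1, zero_mul, norm_zero]
      exact Set.indicator_nonneg (fun _ _ => norm_nonneg _) _

/-- The limit exists. -/
theorem limit_exists (k : ℕ) (G : ℕ → ℕ)
    (h1 : ∀ n, ∀ A ⊆ Icc 1 n, MF k A → A.card ≤ G n)
    (h2 : ∀ n, ∃ A ⊆ Icc 1 n, MF k A ∧ A.card = G n) :
    ∃ c : ℝ, Tendsto (fun n : ℕ => (G n : ℝ) / n) atTop (𝓝 c) := by
  apply cauchySeq_tendsto_of_complete
  rw [Metric.cauchySeq_iff]
  intro η hη
  obtain ⟨x, hx⟩ := exists_nat_gt (4 / η)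
  have hx1 : 4 / ((x : ℝ) + 1) < η := by
    rw [div_lt_iff₀ (by positivity)]
    rw [div_lt_iff₀ hη] at hx
    nlinarith
  obtain ⟨C, hC⟩ := lim_sum k x
  have hx0 : (0 : ℝ) < 1 / ((x : ℝ) + 1) := by positivity
  obtain ⟨N, hN⟩ := (Metric.tendsto_atTop.1 hC) _ hx0
  have hmain : ∀ n ≥ max N 1, |(G n : ℝ) / n - C| < 2 / ((x : ℝ) + 1) := by
    intro n hn
    have hn1 : 1 ≤ n := le_trans (le_max_right _ _) hn
    have hn0 : (0 : ℝ) < n := by exact_mod_cast hn1
    have h3 := hN n (le_trans (le_max_left _ _) hn)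
    rw [Real.dist_eq] at h3
    set S := ∑ t ∈ TT x.factorial n, (hh k x.factorial (n / t) : ℝ) with hS
    have h4 : (G n : ℝ) ≤ S := by
      obtain ⟨A, hA1, hA2, hA3⟩ := h2 n
      have h5 := card_le_sum k x.factorial n (Nat.factorial_pos x) A hA1 hA2
      rw [← hA3, hS]
      exact_mod_cast h5
    have h5 : S ≤ G n + n / (x + 1) := by
      obtain ⟨A, hA1, hA2, hA3⟩ := exists_big k x n
      have h6 := h1 n A hA1 hA2
      have h7 : ∑ t ∈ TT x.factorial n, hh k x.factorial (n / t) ≤ G n + n / (x + 1) := by omega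
      have h8 : S ≤ (G n : ℝ) + ((n / (x + 1) : ℕ) : ℝ) := by
        rw [hS]
        exact_mod_cast h7
      have h9 : ((n / (x + 1) : ℕ) : ℝ) ≤ n / (x + 1) := by
        have := @Nat.cast_div_le ℝ _ _ _ n (x + 1)
        push_cast at this
        exact this
      linarith
    have h6 : |(G n : ℝ) / n - S / n| ≤ 1 / ((x : ℝ) + 1) := by
      rw [← sub_div, abs_div, abs_of_pos hn0, div_le_iff₀ hn0, abs_le]
      have h7 : (1 : ℝ) / (x + 1) * n = n / (x + 1) := by ring
      rw [h7]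
      have h8 : (0 : ℝ) ≤ n / (x + 1) := by positivity
      constructor <;> linarith
    calc |(G n : ℝ) / n - C| = |((G n : ℝ) / n - S / n) + (S / n - C)| := by ring_nf
      _ ≤ |(G n : ℝ) / n - S / n| + |S / n - C| := abs_add_le _ _
      _ < 1 / ((x : ℝ) + 1) + 1 / ((x : ℝ) + 1) := by linarith
      _ = _ := by ring
  refine ⟨max N 1, fun m hm n hn => ?_⟩
  rw [Real.dist_eq]
  have h3 := hmain m hm
  have h4 := hmain n hn
  calc |(G m : ℝ) / m - G n / n| = |((G m : ℝ) / m - C) - ((G n : ℝ) / n - C)| := by ring_nf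
    _ ≤ |(G m : ℝ) / m - C| + |(G n : ℝ) / n - C| := abs_sub _ _
    _ < 2 / ((x : ℝ) + 1) + 2 / ((x : ℝ) + 1) := by linarith
    _ = 4 / ((x : ℝ) + 1) := by ring
    _ < η := hx1

end Pool.Agent.TH444.MF
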