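import Mathlib
import Pool.Agent.TH444.MF.LimitB

/-!
The case `k = 2`: explicit bounds for the density.
-/

set_option autoImplicit false
open Finset Filter Topology

namespace Pool.Agent.TH444.MF

theorem chain_le {B C : Finset ℕ} (h : MF 2 B) (hC : C ⊆ B) (h0 : ∀ a ∈ C, 0 < a)
    (hch : ∀ a ∈ C, ∀ b ∈ C, a ∣ b ∨ b ∣ a) : C.card ≤ 2 := by
  by_contra hc
  push Not at hc
  have hne : C.Nonempty := card_pos.1 (by omega)
  set x := C.max' hne with hx
  have hxC : x ∈ C := C.max'_mem hne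
  have h1 : C.erase x ⊆ B.filter (fun b => b ≠ x ∧ b ∣ x) := by
    intro b hb
    have hb' := mem_erase.1 hb
    refine mem_filter.2 ⟨hC hb'.2, hb'.1, ?_⟩
    rcases hch b hb'.2 x hxC with h2 | h2
    · exact h2
    · exfalso
      have h3 := Nat.le_of_dvd (h0 b hb'.2) h2
      have h4 : b ≤ x := C.le_max' b hb'.2
      exact hb'.1 (le_antisymm h4 h3)
  have h2 := card_le_card h1
  rw [card_erase_of_mem hxC] at h2
  have h3 := h x (hC hxC)
  omega

/-- numbers `2 ^ α` and `3 * 2 ^ α` -/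
def Blk (s : ℕ) : Prop := ∃ α, s = 2 ^ α ∨ s = 3 * 2 ^ α

theorem pow_chain (i j : ℕ) : 2 ^ i ∣ 2 ^ j ∨ 2 ^ j ∣ 2 ^ i := by
  rcases le_total i j with h | h
  · exact Or.inl (pow_dvd_pow 2 h)
  · exact Or.inr (pow_dvd_pow 2 h)

theorem small_case : ∀ B ∈ ({1, 2, 3, 4, 6} : Finset ℕ).powerset,
    (∀ a ∈ B, (B.filter (fun b => b ≠ a ∧ b ∣ a)).card < 2) → B.card ≤ 3 := by
  decide

theorem blk_small {s : ℕ} (h : Blk s) (h8 : s < 8) : s ∈ ({1, 2, 3, 4, 6} : Finset ℕ) := by
  obtain ⟨α, h1 | h1⟩ := h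
  · have h2 : α < 3 := by
      by_contra hc
      push Not at hc
      have : 2 ^ 3 ≤ 2 ^ α := Nat.pow_le_pow_right (by norm_num) hc
      omega
    interval_cases α <;> simp [h1]
  · have h2 : α < 2 := by
      by_contra hc
      push Not at hc
      have : 2 ^ 2 ≤ 2 ^ α := Nat.pow_le_pow_right (by norm_num) hc
      omega
    interval_cases α <;> simp [h1]

theorem block_le (v : ℕ) (B : Finset ℕ) (hB : B ⊆ Icc 1 v) (h : MF 2 B) (hb : ∀ b ∈ B, Blk b) :
    B.card ≤ (if 1 ≤ v then 1 else 0) + (if 2 ≤ v then 1 else 0) + (if 3 ≤ v then 1 else 0) +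
      (if 8 ≤ v then 1 else 0) := by
  classical
  have hv : B.card ≤ v := by
    have := card_le_card hB
    rwa [Nat.card_Icc, Nat.add_sub_cancel] at this
  by_cases h8 : 8 ≤ v
  · have h1 : B = B.filter (fun s => ∃ α, s = 2 ^ α) ∪ B.filter (fun s => ∃ α, s = 3 * 2 ^ α) := by
      ext s
      simp only [mem_union, mem_filter]
      constructor
      · intro hs
        obtain ⟨α, h2 | h2⟩ := hb s hs
        · exact Or.inl ⟨hs, α, h2⟩
        · exact Or.inr ⟨hs, α, h2⟩
      · rintro (⟨h2, -⟩ | ⟨h2, -⟩) <;> exact h2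
    have h2 : (B.filter (fun s => ∃ α, s = 2 ^ α)).card ≤ 2 := by
      apply chain_le h (filter_subset _ _)
      · intro a ha
        exact (mem_Icc.1 (hB (mem_filter.1 ha).1)).1
      · intro a ha b hb
        obtain ⟨i, rfl⟩ := (mem_filter.1 ha).2
        obtain ⟨j, rfl⟩ := (mem_filter.1 hb).2
        exact pow_chain i j
    have h3 : (B.filter (fun s => ∃ α, s = 3 * 2 ^ α)).card ≤ 2 := by
      apply chain_le h (filter_subset _ _)
      · intro a ha
        exact (mem_Icc.1 (hB (mem_filter.1 ha).1)).1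
      · intro a ha b hb
        obtain ⟨i, rfl⟩ := (mem_filter.1 ha).2
        obtain ⟨j, rfl⟩ := (mem_filter.1 hb).2
        rcases pow_chain i j with h4 | h4
        · exact Or.inl (Nat.mul_dvd_mul_left 3 h4)
        · exact Or.inr (Nat.mul_dvd_mul_left 3 h4)
    have h4 : B.card ≤ 4 := by
      rw [h1]
      exact (card_union_le _ _).trans (by omega)
    rw [if_pos (by omega), if_pos (by omega), if_pos (by omega), if_pos h8]
    omega
  · by_cases h3 : 3 ≤ v
    · have h4 : B.card ≤ 3 := by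
        apply small_case B _ h
        rw [mem_powerset]
        intro s hs
        exact blk_small (hb s hs) (by have := (mem_Icc.1 (hB hs)).2; omega)
      rw [if_pos (by omega), if_pos (by omega), if_pos h3, if_neg h8]
      omega
    · interval_cases v <;> simp at hv ⊢ <;> omega

/-- representatives of the blocks -/
def Mp (m : ℕ) : Prop := ∃ i t, m = 9 ^ i * t ∧ Nat.Coprime 6 t

theorem blk_odd {s : ℕ} (h : Blk s) (h2 : ¬ 2 ∣ s) : s = 1 ∨ s = 3 := by
  obtain ⟨α, h1 | h1⟩ := h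
  · rcases Nat.eq_zero_or_pos α with h0 | h0
    · left; rw [h1, h0]; rfl
    · exact absurd (h1 ▸ dvd_pow_self 2 (by omega)) h2
  · rcases Nat.eq_zero_or_pos α with h0 | h0
    · right; rw [h1, h0]; rfl
    · exact absurd (h1 ▸ Dvd.dvd.mul_left (dvd_pow_self 2 (by omega)) 3) h2

theorem decomp2 : ∀ a : ℕ, 0 < a → ∃ m s, a = m * s ∧ Mp m ∧ Blk s := by
  intro a
  induction a using Nat.strong_induction_on with
  | _ a ih =>
    intro ha
    by_cases h2 : 2 ∣ a
    · obtain ⟨c, rfl⟩ := h2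
      obtain ⟨m, s, h1, h3, α, h4⟩ := ih c (by omega) (by omega)
      refine ⟨m, 2 * s, by rw [h1]; ring, h3, α + 1, ?_⟩
      rcases h4 with h4 | h4
      · left; rw [h4]; ring
      · right; rw [h4]; ring
    · by_cases h3 : 3 ∣ a
      · obtain ⟨c, rfl⟩ := h3
        obtain ⟨m, s, h1, h4, h5⟩ := ih c (by omega) (by omega)
        have h6 : ¬ 2 ∣ s := by
          intro h7
          apply h2
          rw [h1]
          exact Dvd.dvd.mul_left (Dvd.dvd.mul_left h7 m) 3
        rcases blk_odd h5 h6 with h7 | h7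
        · exact ⟨m, 3, by rw [h1, h7]; ring, h4, 0, Or.inr rfl⟩
        · obtain ⟨i, t, h8, h9⟩ := h4
          exact ⟨9 * m, 1, by rw [h1, h7]; ring, ⟨i + 1, t, by rw [h8]; ring, h9⟩, 0, Or.inl rfl⟩
      · refine ⟨a, 1, by ring, ⟨0, a, by ring, ?_⟩, 0, Or.inl rfl⟩
        have h4 : Nat.Coprime 2 a := (Nat.Prime.coprime_iff_not_dvd Nat.prime_two).2 h2
        have h5 : Nat.Coprime 3 a := (Nat.Prime.coprime_iff_not_dvd Nat.prime_three).2 h3
        exact Nat.Coprime.mul_left h4 h5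

open Classical in
/-- number of representatives up to `y` -/
noncomputable def cM (y : ℕ) : ℕ := ((Icc 1 y).filter Mp).card

open Classical in
theorem cM_rec (y : ℕ) : cM y ≤ (TT 6 y).card + cM (y / 9) := by
  have h1 : (Icc 1 y).filter Mp ⊆ TT 6 y ∪ ((Icc 1 (y / 9)).filter Mp).image (fun m => 9 * m) := by
    intro m hm
    obtain ⟨h2, i, t, h3, h4⟩ := mem_filter.1 hm
    rw [mem_union]
    rcases Nat.eq_zero_or_pos i with h0 | h0
    · left
      rw [h3, h0, pow_zero, one_mul]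
      rw [h3, h0, pow_zero, one_mul] at h2
      exact mem_filter.2 ⟨h2, h4⟩
    · right
      obtain ⟨j, rfl⟩ : ∃ j, i = j + 1 := ⟨i - 1, by omega⟩
      have h5 := mem_Icc.1 h2
      refine mem_image.2 ⟨9 ^ j * t, mem_filter.2 ⟨?_, j, t, rfl, h4⟩, by rw [h3]; ring⟩
      have h6 : m = 9 * (9 ^ j * t) := by rw [h3]; ring
      rw [mem_Icc]
      omega
  exact (card_le_card h1).trans ((card_union_le _ _).trans
    (Nat.add_le_add_left card_image_le _))

theorem cM_le (y : ℕ) : (cM y : ℝ) ≤ 3 / 8 * y + 3 * √y := by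
  induction y using Nat.strong_induction_on with
  | _ y ih =>
    rcases Nat.eq_zero_or_pos y with h0 | h0
    · subst h0
      simp [cM]
    · have h1 := cM_rec y
      have h2 := ih (y / 9) (Nat.div_lt_self h0 (by norm_num))
      have h3 := (TT_bounds 6 y (by norm_num)).2
      have h4 : Nat.totient 6 = 2 := by decide
      rw [h4] at h3
      have h5 : ((TT 6 y).card : ℝ) ≤ y / 3 + 2 := by
        have h6 : 3 * (TT 6 y).card ≤ y + 6 := by omega
        have h7 : (3 : ℝ) * (TT 6 y).card ≤ y + 6 := by exact_mod_cast h6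
        linarith
      have h6 : ((y / 9 : ℕ) : ℝ) ≤ y / 9 := by
        have := @Nat.cast_div_le ℝ _ _ _ y 9
        push_cast at this
        exact this
      have h7 : √((y / 9 : ℕ) : ℝ) ≤ √y / 3 := by
        rw [show (√(y : ℝ)) / 3 = √((y : ℝ) / 9) by
          rw [Real.sqrt_div (Nat.cast_nonneg _)]
          congr 1
          rw [show (9 : ℝ) = 3 ^ 2 by norm_num, Real.sqrt_sq (by norm_num)]]
        exact Real.sqrt_le_sqrt h6
      have h8 : (1 : ℝ) ≤ √y := by
        rw [Real.one_le_sqrt]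
        exact_mod_cast h0
      have h9 : (cM y : ℝ) ≤ (TT 6 y).card + cM (y / 9) := by exact_mod_cast h1
      linarith

open Classical in
theorem upper2 (n : ℕ) (A : Finset ℕ) (hA : A ⊆ Icc 1 n) (h : MF 2 A) :
    A.card ≤ cM n + cM (n / 2) + cM (n / 3) + cM (n / 8) := by
  have hdec : ∀ a : ℕ, ∃ m s, 0 < a → a = m * s ∧ Mp m ∧ Blk s := by
    intro a
    rcases Nat.eq_zero_or_pos a with h0 | h0
    · exact ⟨0, 0, fun h => absurd h (by omega)⟩
    · obtain ⟨t, s, h1⟩ := decomp2 a h0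
      exact ⟨t, s, fun _ => h1⟩
  choose τ σ hτ using hdec
  have hpos : ∀ a ∈ A, 0 < a := fun a ha => (mem_Icc.1 (hA ha)).1
  have hτ0 : ∀ a ∈ A, 0 < τ a ∧ 0 < σ a := by
    intro a ha
    have h1 := (hτ a (hpos a ha)).1
    have h2 := hpos a ha
    constructor
    · rcases Nat.eq_zero_or_pos (τ a) with h0 | h0
      · rw [h0, zero_mul] at h1; omega
      · exact h0
    · rcases Nat.eq_zero_or_pos (σ a) with h0 | h0
      · rw [h0, mul_zero] at h1; omega
      · exact h0
  have hmaps : Set.MapsTo τ (A : Set ℕ) ((Icc 1 n).filter Mp : Set ℕ) := by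
    intro a ha
    have ha' : a ∈ A := ha
    have h1 := hτ a (hpos a ha')
    have h2 := hτ0 a ha'
    have h3 := mem_Icc.1 (hA ha')
    have h4 : τ a ≤ a := by
      calc τ a = τ a * 1 := (mul_one _).symm
        _ ≤ τ a * σ a := Nat.mul_le_mul_left _ h2.2
        _ = a := h1.1.symm
    simp only [coe_filter, Set.mem_ofPred_eq, mem_Icc]
    exact ⟨⟨h2.1, h4.trans h3.2⟩, h1.2.1⟩
  have hsum : ∀ j : ℕ, 0 < j → (∑ m ∈ (Icc 1 n).filter Mp, if j ≤ n / m then 1 else 0) =
      cM (n / j) := by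
    intro j hj
    rw [← card_filter, cM]
    congr 1
    ext m
    simp only [mem_filter, mem_Icc]
    constructor
    · rintro ⟨⟨⟨h1, h2⟩, h3⟩, h4⟩
      have h5 := (Nat.le_div_iff_mul_le h1).1 h4
      exact ⟨⟨h1, (Nat.le_div_iff_mul_le hj).2 (by rw [mul_comm]; exact h5)⟩, h3⟩
    · rintro ⟨⟨h1, h2⟩, h3⟩
      have h5 := (Nat.le_div_iff_mul_le hj).1 h2
      refine ⟨⟨⟨h1, ?_⟩, h3⟩, (Nat.le_div_iff_mul_le h1).2 (by rw [mul_comm]; exact h5)⟩
      calc m = m * 1 := (mul_one m).symm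
        _ ≤ m * j := Nat.mul_le_mul_left _ hj
        _ ≤ n := h5
  have hn1 : cM n = cM (n / 1) := by rw [Nat.div_one]
  rw [hn1, ← hsum 1 one_pos, ← hsum 2 two_pos, ← hsum 3 (by norm_num), ← hsum 8 (by norm_num),
    ← sum_add_distrib, ← sum_add_distrib, ← sum_add_distrib, card_eq_sum_card_fiberwise hmaps]
  apply sum_le_sum
  intro t ht
  have ht' := mem_filter.1 ht
  have ht0 : 0 < t := (mem_Icc.1 ht'.1).1
  have hinj : Set.InjOn σ ((A.filter (fun a => τ a = t) : Finset ℕ) : Set ℕ) := by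
    intro a ha b hb hab
    simp only [coe_filter, Set.mem_ofPred_eq] at ha hb
    rw [(hτ a (hpos a ha.1)).1, (hτ b (hpos b hb.1)).1, ha.2, hb.2, hab]
  rw [← card_image_of_injOn hinj]
  apply block_le
  · intro s hs
    obtain ⟨a, ha, rfl⟩ := mem_image.1 hs
    have ha' := mem_filter.1 ha
    have h1 := hτ a (hpos a ha'.1)
    have h2 := mem_Icc.1 (hA ha'.1)
    rw [mem_Icc]
    refine ⟨(hτ0 a ha'.1).2, (Nat.le_div_iff_mul_le ht0).2 ?_⟩
    rw [mul_comm, ← ha'.2, ← h1.1]
    exact h2.2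
  · intro s hs
    obtain ⟨a, ha, rfl⟩ := mem_image.1 hs
    have ha' := mem_filter.1 ha
    refine lt_of_le_of_lt ?_ (h a ha'.1)
    apply card_le_card_of_injOn (fun s => t * s)
    · intro s' hs'
      simp only [coe_filter, Set.mem_ofPred_eq, mem_image, mem_filter] at hs' ⊢
      obtain ⟨⟨b, ⟨hb1, hb2⟩, rfl⟩, h3, h4⟩ := hs'
      have h5 : b = t * σ b := by rw [← hb2]; exact (hτ b (hpos b hb1)).1
      have h6 : a = t * σ a := by rw [← ha'.2]; exact (hτ a (hpos a ha'.1)).1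
      rw [← h5]
      refine ⟨hb1, ?_, ?_⟩
      · rintro rfl
        exact h3 rfl
      · rw [h5, h6]
        exact Nat.mul_dvd_mul_left _ h4
    · intro s _ s' _ hss
      exact Nat.eq_of_mul_eq_mul_left ht0 hss
  · intro s hs
    obtain ⟨a, ha, rfl⟩ := mem_image.1 hs
    exact (hτ a (hpos a (mem_filter.1 ha).1)).2.2

theorem upper2_real (n : ℕ) (A : Finset ℕ) (hA : A ⊆ Icc 1 n) (h : MF 2 A) :
    (A.card : ℝ) ≤ 47 / 64 * n + 12 * √n := by
  have h1 := upper2 n A hA h
  have h2 : (A.card : ℝ) ≤ cM n + cM (n / 2) + cM (n / 3) + cM (n / 8) := by exact_mod_cast h1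
  have key : ∀ j : ℕ, 0 < j → (cM (n / j) : ℝ) ≤ 3 / 8 * (n / j) + 3 * √n := by
    intro j hj
    have h3 := cM_le (n / j)
    have h4 : ((n / j : ℕ) : ℝ) ≤ n / j := Nat.cast_div_le
    have h5 : ((n / j : ℕ) : ℝ) ≤ n := by exact_mod_cast Nat.div_le_self n j
    have h6 : √((n / j : ℕ) : ℝ) ≤ √n := Real.sqrt_le_sqrt h5
    linarith
  have k1 := cM_le n
  have k2 := key 2 (by norm_num)
  have k3 := key 3 (by norm_num)
  have k8 := key 8 (by norm_num)
  push_cast at k2 k3 k8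
  linarith

end Pool.Agent.TH444.MF
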