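import Mathlib
import Pool.Agent.TH444.MF.Two

/-!
The case `k = 2`: a set of density `43/60`.
-/

set_option autoImplicit false
open Finset Filter Topology

namespace Pool.Agent.TH444.MF

/-- The set: `(n/3, n]`, the odd numbers in `(n/4, n/3]`, and, for odd `t` in `(n/15, n/12]`,
`3 t` and `4 t` instead of `12 t`; here `n = 120 m`. -/
def setA (m : ℕ) : Finset ℕ :=
  ((Ioc (40 * m) (120 * m)) \ (range m).image (fun i => 12 * (8 * m + 2 * i + 1))) ∪
    ((range (5 * m)).image (fun i => 30 * m + 2 * i + 1) ∪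
      ((range m).image (fun i => 3 * (8 * m + 2 * i + 1)) ∪
        (range m).image (fun i => 4 * (8 * m + 2 * i + 1))))

theorem mem_setA (m x : ℕ) : x ∈ setA m ↔
    ((40 * m < x ∧ x ≤ 120 * m) ∧ ∀ i < m, 12 * (8 * m + 2 * i + 1) ≠ x) ∨
    (∃ i < 5 * m, 30 * m + 2 * i + 1 = x) ∨ (∃ i < m, 3 * (8 * m + 2 * i + 1) = x) ∨
    (∃ i < m, 4 * (8 * m + 2 * i + 1) = x) := by
  simp only [setA, mem_union, Finset.mem_sdiff, mem_Ioc, mem_image, mem_range, not_exists, not_and]

theorem setA_range {m x : ℕ} (h : x ∈ setA m) : 24 * m < x ∧ x ≤ 120 * m := by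
  rw [mem_setA] at h
  rcases h with ⟨h, -⟩ | ⟨i, hi, h⟩ | ⟨i, hi, h⟩ | ⟨i, hi, h⟩ <;> omega

theorem setA_not {m i : ℕ} (hi : i < m) : 12 * (8 * m + 2 * i + 1) ∉ setA m := by
  rw [mem_setA]
  rintro (⟨-, h⟩ | ⟨j, hj, h⟩ | ⟨j, hj, h⟩ | ⟨j, hj, h⟩)
  · exact h i hi rfl
  · omega
  · omega
  · omega

theorem setA_small {m x : ℕ} (h : x ∈ setA m) (hx : x ≤ 30 * m) :
    ∃ i < m, 3 * (8 * m + 2 * i + 1) = x := by
  rw [mem_setA] at h
  rcases h with ⟨h, -⟩ | ⟨i, hi, h⟩ | ⟨i, hi, h⟩ | ⟨i, hi, h⟩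
  · omega
  · omega
  · exact ⟨i, hi, h⟩
  · omega

theorem setA_even {m x : ℕ} (h : x ∈ setA m) (hx : x ≤ 40 * m) (h2 : x % 2 = 0) :
    ∃ i < m, 4 * (8 * m + 2 * i + 1) = x := by
  rw [mem_setA] at h
  rcases h with ⟨h, -⟩ | ⟨i, hi, h⟩ | ⟨i, hi, h⟩ | ⟨i, hi, h⟩
  · omega
  · omega
  · omega
  · exact ⟨i, hi, h⟩

theorem setA_MF (m : ℕ) : MF 2 (setA m) := by
  intro a ha
  rw [Nat.lt_succ_iff, card_le_one]
  have har := setA_range ha
  have key : ∀ b ∈ setA m, ∀ b' ∈ setA m, ∀ c c' : ℕ, a = b * c → a = b' * c' → b ≠ a →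
      b' ≠ a → c < c' → False := by
    intro b hb b' hb' c c' h1 h1' h2 h2' hlt
    have hbr := setA_range hb
    have hbr' := setA_range hb'
    have hc : c ≠ 0 := by rintro rfl; omega
    have hc1 : c ≠ 1 := by rintro rfl; omega
    have hc5 : c' < 5 := by
      by_contra hc5
      push Not at hc5
      have : b' * 5 ≤ b' * c' := Nat.mul_le_mul_left _ hc5
      omega
    have h3 : (c = 2 ∧ c' = 3) ∨ (c = 2 ∧ c' = 4) ∨ (c = 3 ∧ c' = 4) := by omega
    rcases h3 with ⟨rfl, rfl⟩ | ⟨rfl, rfl⟩ | ⟨rfl, rfl⟩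
    · obtain ⟨i, hi, h4⟩ := setA_even hb' (by omega) (by omega)
      apply setA_not hi
      have : 12 * (8 * m + 2 * i + 1) = a := by omega
      rw [this]
      exact ha
    · obtain ⟨i, hi, h4⟩ := setA_small hb' (by omega)
      apply setA_not hi
      have : 12 * (8 * m + 2 * i + 1) = a := by omega
      rw [this]
      exact ha
    · obtain ⟨i, hi, h4⟩ := setA_small hb' (by omega)
      apply setA_not hi
      have : 12 * (8 * m + 2 * i + 1) = a := by omega
      rw [this]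
      exact ha
  intro b hb b' hb'
  obtain ⟨h1, h2, c, h3⟩ := mem_filter.1 hb
  obtain ⟨h1', h2', c', h3'⟩ := mem_filter.1 hb'
  rcases lt_trichotomy c c' with h | h | h
  · exact (key b h1 b' h1' c c' h3 h3' h2 h2' h).elim
  · subst h
    have hc0 : 0 < c := by
      rcases Nat.eq_zero_or_pos c with h0 | h0
      · subst h0; omega
      · exact h0
    exact Nat.eq_of_mul_eq_mul_right hc0 (h3.symm.trans h3')
  · exact (key b' h1' b h1 c' c h3' h3 h2' h2 h).elim

theorem setA_card (m : ℕ) : 86 * m ≤ (setA m).card := by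
  have h4 : ((range m).image (fun i => 4 * (8 * m + 2 * i + 1))).card = m := by
    rw [card_image_of_injective _ (by intro i j h; simp only at h; omega), card_range]
  have h3 : ((range m).image (fun i => 3 * (8 * m + 2 * i + 1))).card = m := by
    rw [card_image_of_injective _ (by intro i j h; simp only at h; omega), card_range]
  have h12 : ((range m).image (fun i => 12 * (8 * m + 2 * i + 1))).card = m := by
    rw [card_image_of_injective _ (by intro i j h; simp only at h; omega), card_range]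
  have h2 : ((range (5 * m)).image (fun i => 30 * m + 2 * i + 1)).card = 5 * m := by
    rw [card_image_of_injective _ (by intro i j h; simp only at h; omega), card_range]
  have h1 : 79 * m ≤ ((Ioc (40 * m) (120 * m)) \
      (range m).image (fun i => 12 * (8 * m + 2 * i + 1))).card := by
    have := le_card_sdiff ((range m).image (fun i => 12 * (8 * m + 2 * i + 1)))
      (Ioc (40 * m) (120 * m))
    rw [h12, Nat.card_Ioc] at this
    omega
  rw [setA, card_union_of_disjoint, card_union_of_disjoint, card_union_of_disjoint, h2, h3, h4]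
  · omega
  · rw [disjoint_left]
    intro x hx hx'
    simp only [mem_image, mem_range] at hx hx'
    obtain ⟨i, hi, h5⟩ := hx
    obtain ⟨j, hj, h6⟩ := hx'
    omega
  · rw [disjoint_left]
    intro x hx hx'
    simp only [mem_union, mem_image, mem_range] at hx hx'
    obtain ⟨i, hi, h5⟩ := hx
    rcases hx' with ⟨j, hj, h6⟩ | ⟨j, hj, h6⟩ <;> omega
  · rw [disjoint_left]
    intro x hx hx'
    simp only [Finset.mem_sdiff, mem_Ioc, mem_union, mem_image, mem_range] at hx hx'
    rcases hx' with ⟨j, hj, h6⟩ | ⟨j, hj, h6⟩ | ⟨j, hj, h6⟩ <;> omega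

theorem setA_sub (m : ℕ) : setA m ⊆ Icc 1 (120 * m) := by
  intro x hx
  have := setA_range hx
  rw [mem_Icc]
  omega

/-- The bounds for the limit. -/
theorem bounds_two (G : ℕ → ℕ)
    (h1 : ∀ n, ∀ A ⊆ Icc 1 n, MF 2 A → A.card ≤ G n)
    (h2 : ∀ n, ∃ A ⊆ Icc 1 n, MF 2 A ∧ A.card = G n) :
    ∃ c : ℝ, Tendsto (fun n : ℕ => (G n : ℝ) / n) atTop (𝓝 c) ∧ 43 / 60 ≤ c ∧ c ≤ 47 / 64 := by
  obtain ⟨c, hc⟩ := limit_exists 2 G h1 h2
  refine ⟨c, hc, ?_, ?_⟩
  · have hT : Tendsto (fun m : ℕ => 120 * (m + 1)) atTop atTop :=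
      tendsto_atTop_mono (fun m => by simp only [id]; omega) tendsto_id
    refine ge_of_tendsto (hc.comp hT) (Eventually.of_forall fun m => ?_)
    have h3 := (setA_card (m + 1)).trans (h1 _ _ (setA_sub (m + 1)) (setA_MF (m + 1)))
    have h4 : (86 : ℝ) * (m + 1) ≤ G (120 * (m + 1)) := by exact_mod_cast h3
    simp only [Function.comp]
    push_cast
    rw [le_div_iff₀ (by positivity)]
    linarith
  · have hT : Tendsto (fun j : ℕ => (j + 1) ^ 2) atTop atTop :=
      tendsto_atTop_mono (fun m => by simp only [id]; nlinarith) tendsto_id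
    have hlim : Tendsto (fun j : ℕ => (47 / 64 : ℝ) + 12 / ((j + 1 : ℕ) : ℝ)) atTop
        (𝓝 (47 / 64 + 0)) := by
      apply tendsto_const_nhds.add
      exact (tendsto_add_atTop_iff_nat (f := fun j : ℕ => (12 : ℝ) / j) 1).2
        (tendsto_const_div_atTop_nhds_zero_nat 12)
    rw [add_zero] at hlim
    refine le_of_tendsto_of_tendsto' (hc.comp hT) hlim (fun j => ?_)
    obtain ⟨A, hA1, hA2, hA3⟩ := h2 ((j + 1) ^ 2)
    have h3 := upper2_real _ A hA1 hA2
    rw [hA3] at h3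
    have hj : (0 : ℝ) < (j : ℝ) + 1 := by positivity
    push_cast at h3
    rw [Real.sqrt_sq hj.le] at h3
    simp only [Function.comp]
    push_cast
    rw [div_le_iff₀ (by positivity)]
    have h4 : (47 / 64 + 12 / ((j : ℝ) + 1)) * ((j : ℝ) + 1) ^ 2 =
        47 / 64 * ((j : ℝ) + 1) ^ 2 + 12 * (j + 1) := by
      field_simp
    rw [h4]
    exact h3

end Pool.Agent.TH444.MF
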