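import Mathlib
import Pool.Agent.TH444.MF.TwoLower

/-!
The case `k = 2`: a sharper upper bound for the density, with blocks of four columns.
-/

set_option autoImplicit false
open Finset Filter Topology

namespace Pool.Agent.TH444.MF

open Classical in
/-- the column `3 ^ b * 2 ^ α` of `B` -/
noncomputable def col (B : Finset ℕ) (b : ℕ) : Finset ℕ := B.filter (fun s => ∃ α, s = 3 ^ b * 2 ^ α)

open Classical in
theorem col_le {v : ℕ} {B : Finset ℕ} (hB : B ⊆ Icc 1 v) (h : MF 2 B) (b : ℕ) :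
    (col B b).card ≤ 2 := by
  apply chain_le h (filter_subset _ _)
  · intro a ha
    exact (mem_Icc.1 (hB (mem_filter.1 ha).1)).1
  · intro a ha c hc
    obtain ⟨i, rfl⟩ := (mem_filter.1 ha).2
    obtain ⟨j, rfl⟩ := (mem_filter.1 hc).2
    rcases pow_chain i j with h4 | h4
    · exact Or.inl (Nat.mul_dvd_mul_left _ h4)
    · exact Or.inr (Nat.mul_dvd_mul_left _ h4)

open Classical in
theorem col_two {B : Finset ℕ} {b : ℕ} (h : 2 ≤ (col B b).card) :
    ∃ α β, α < β ∧ 3 ^ b * 2 ^ α ∈ B ∧ 3 ^ b * 2 ^ β ∈ B := by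
  obtain ⟨x, hx, y, hy, hxy⟩ := one_lt_card.1 (show 1 < (col B b).card by omega)
  obtain ⟨hx1, α, hα⟩ := mem_filter.1 hx
  obtain ⟨hy1, β, hβ⟩ := mem_filter.1 hy
  rcases lt_trichotomy α β with h1 | h1 | h1
  · exact ⟨α, β, h1, hα ▸ hx1, hβ ▸ hy1⟩
  · exact absurd (by rw [hα, hβ, h1]) hxy
  · exact ⟨β, α, h1, hβ ▸ hy1, hα ▸ hx1⟩

theorem col_lt {B : Finset ℕ} (h : MF 2 B) {b b' α α' β' : ℕ} (hb : b < b') (hαβ : α' < β')
    (h1 : 3 ^ b' * 2 ^ α' ∈ B) (h2 : 3 ^ b' * 2 ^ β' ∈ B) (h3 : 3 ^ b * 2 ^ α ∈ B) : β' < α := by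
  by_contra hc
  push Not at hc
  have h4 := h _ h2
  have hlt1 : 3 ^ b' * 2 ^ α' < 3 ^ b' * 2 ^ β' :=
    Nat.mul_lt_mul_of_pos_left (Nat.pow_lt_pow_right (by norm_num) hαβ) (by positivity)
  have hlt2 : 3 ^ b * 2 ^ α < 3 ^ b' * 2 ^ β' :=
    lt_of_lt_of_le (Nat.mul_lt_mul_of_pos_right (Nat.pow_lt_pow_right (by norm_num) hb)
      (by positivity)) (Nat.mul_le_mul_left _ (Nat.pow_le_pow_right (by norm_num) hc))
  have hd1 : 3 ^ b' * 2 ^ α' ∣ 3 ^ b' * 2 ^ β' := Nat.mul_dvd_mul_left _ (pow_dvd_pow 2 hαβ.le)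
  have hd2 : 3 ^ b * 2 ^ α ∣ 3 ^ b' * 2 ^ β' :=
    Nat.mul_dvd_mul (pow_dvd_pow 3 hb.le) (pow_dvd_pow 2 hc)
  have hne : 3 ^ b' * 2 ^ α' ≠ 3 ^ b * 2 ^ α := by
    intro h5
    have h6 : 3 ^ b' ∣ 3 ^ b * 2 ^ α := h5 ▸ Dvd.intro _ rfl
    have h7 : Nat.Coprime (3 ^ b') (2 ^ α) := Nat.Coprime.pow _ _ (by norm_num)
    have h8 := h7.dvd_of_dvd_mul_right h6
    have h9 := Nat.le_of_dvd (by positivity) h8
    have h10 : 3 ^ b < 3 ^ b' := Nat.pow_lt_pow_right (by norm_num) hb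
    omega
  have h5 : ({3 ^ b' * 2 ^ α', 3 ^ b * 2 ^ α} : Finset ℕ) ⊆
      B.filter (fun c => c ≠ 3 ^ b' * 2 ^ β' ∧ c ∣ 3 ^ b' * 2 ^ β') := by
    intro x hx
    simp only [mem_insert, mem_singleton] at hx
    rw [mem_filter]
    rcases hx with rfl | rfl
    · exact ⟨h1, hlt1.ne, hd1⟩
    · exact ⟨h3, hlt2.ne, hd2⟩
  have h6 := card_le_card h5
  rw [card_pair hne] at h6
  omega

/-- numbers `3 ^ b * 2 ^ α`, `b < 4` -/
def Blk4 (s : ℕ) : Prop := ∃ b < 4, ∃ α, s = 3 ^ b * 2 ^ α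

open Classical in
theorem block_le4 (v : ℕ) (B : Finset ℕ) (hB : B ⊆ Icc 1 v) (h : MF 2 B) (hb : ∀ b ∈ B, Blk4 b) :
    B.card ≤ (if 1 ≤ v then 1 else 0) + (if 2 ≤ v then 1 else 0) + (if 3 ≤ v then 1 else 0) +
      (if 8 ≤ v then 1 else 0) + (if 9 ≤ v then 1 else 0) + (if 27 ≤ v then 1 else 0) +
      (if 32 ≤ v then 1 else 0) + (if 128 ≤ v then 1 else 0) := by
  have hv : B.card ≤ v := by
    have := card_le_card hB
    rwa [Nat.card_Icc, Nat.add_sub_cancel] at this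
  have hsum : B.card ≤ (col B 0).card + (col B 1).card + (col B 2).card + (col B 3).card := by
    have h1 : B ⊆ col B 0 ∪ col B 1 ∪ col B 2 ∪ col B 3 := by
      intro s hs
      obtain ⟨b, hb4, α, h2⟩ := hb s hs
      simp only [mem_union, col, mem_filter]
      interval_cases b
      · exact Or.inl (Or.inl (Or.inl ⟨hs, α, h2⟩))
      · exact Or.inl (Or.inl (Or.inr ⟨hs, α, h2⟩))
      · exact Or.inl (Or.inr ⟨hs, α, h2⟩)
      · exact Or.inr ⟨hs, α, h2⟩
    refine (card_le_card h1).trans ?_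
    refine (card_union_le _ _).trans (Nat.add_le_add_right ?_ _)
    refine (card_union_le _ _).trans (Nat.add_le_add_right ?_ _)
    exact card_union_le _ _
  have c0 := col_le hB h 0
  have c1 := col_le hB h 1
  have c2 := col_le hB h 2
  have c3 := col_le hB h 3
  have hle : ∀ x ∈ B, x ≤ v := fun x hx => (mem_Icc.1 (hB hx)).2
  have hempty : ∀ b, v < 3 ^ b → (col B b).card = 0 := by
    intro b hvb
    rw [card_eq_zero, ← not_nonempty_iff_eq_empty]
    rintro ⟨x, hx⟩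
    obtain ⟨hx1, α, hα⟩ := mem_filter.1 hx
    have h1 := hle x hx1
    have h2 : 3 ^ b * 1 ≤ 3 ^ b * 2 ^ α := Nat.mul_le_mul_left _ Nat.one_le_two_pow
    omega
  have e1 : v < 3 → (col B 1).card = 0 := fun h => hempty 1 (by simpa using h)
  have e2 : v < 9 → (col B 2).card = 0 := fun h => hempty 2 (by simpa using h)
  have e3 : v < 27 → (col B 3).card = 0 := fun h => hempty 3 (by simpa using h)
  have hbig : ∀ b α, 3 ^ b * 2 ^ α ∈ B → 2 ^ α ≤ v := by
    intro b α hx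
    have h1 := hle _ hx
    have h2 : 1 * 2 ^ α ≤ 3 ^ b * 2 ^ α := Nat.mul_le_mul_right _ (Nat.one_le_pow _ _ (by norm_num))
    omega
  have e3' : v < 54 → (col B 3).card ≤ 1 := by
    intro hv54
    by_contra hc
    obtain ⟨α, β, h1, h2, h3⟩ := col_two (show 2 ≤ (col B 3).card by omega)
    have h4 := hle _ h3
    have h5 : 3 ^ 3 * 2 ^ 1 ≤ 3 ^ 3 * 2 ^ β :=
      Nat.mul_le_mul_left _ (Nat.pow_le_pow_right (by norm_num) (by omega))
    omega
  have f2 : 2 ≤ (col B 0).card → 2 ≤ (col B 1).card → 8 ≤ v := by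
    intro g0 g1
    obtain ⟨a0, b0, l0, m0, n0⟩ := col_two g0
    obtain ⟨a1, b1, l1, m1, n1⟩ := col_two g1
    have r1 := col_lt h (by norm_num : 0 < 1) l1 m1 n1 m0
    have h5 : 2 ^ 3 ≤ 2 ^ b0 := Nat.pow_le_pow_right (by norm_num) (by omega)
    have h6 := hbig _ _ n0
    omega
  have f3 : 2 ≤ (col B 0).card → 2 ≤ (col B 1).card → 2 ≤ (col B 2).card → 32 ≤ v := by
    intro g0 g1 g2
    obtain ⟨a0, b0, l0, m0, n0⟩ := col_two g0
    obtain ⟨a1, b1, l1, m1, n1⟩ := col_two g1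
    obtain ⟨a2, b2, l2, m2, n2⟩ := col_two g2
    have r1 := col_lt h (by norm_num : 0 < 1) l1 m1 n1 m0
    have r2 := col_lt h (by norm_num : 1 < 2) l2 m2 n2 m1
    have h5 : 2 ^ 5 ≤ 2 ^ b0 := Nat.pow_le_pow_right (by norm_num) (by omega)
    have h6 := hbig _ _ n0
    omega
  have f4 : 2 ≤ (col B 0).card → 2 ≤ (col B 1).card → 2 ≤ (col B 2).card →
      2 ≤ (col B 3).card → 128 ≤ v := by
    intro g0 g1 g2 g3
    obtain ⟨a0, b0, l0, m0, n0⟩ := col_two g0
    obtain ⟨a1, b1, l1, m1, n1⟩ := col_two g1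
    obtain ⟨a2, b2, l2, m2, n2⟩ := col_two g2
    obtain ⟨a3, b3, l3, m3, n3⟩ := col_two g3
    have r1 := col_lt h (by norm_num : 0 < 1) l1 m1 n1 m0
    have r2 := col_lt h (by norm_num : 1 < 2) l2 m2 n2 m1
    have r3 := col_lt h (by norm_num : 2 < 3) l3 m3 n3 m2
    have h5 : 2 ^ 7 ≤ 2 ^ b0 := Nat.pow_le_pow_right (by norm_num) (by omega)
    have h6 := hbig _ _ n0
    omega
  clear hbig hempty hle hb
  generalize (col B 0).card = n0 at *
  generalize (col B 1).card = n1 at *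
  generalize (col B 2).card = n2 at *
  generalize (col B 3).card = n3 at *
  split_ifs <;> omega

/-- representatives of the blocks -/
def Mp4 (m : ℕ) : Prop := ∃ i t, m = 81 ^ i * t ∧ Nat.Coprime 6 t

theorem decomp4 : ∀ a : ℕ, 0 < a → ∃ m s, a = m * s ∧ Mp4 m ∧ Blk4 s := by
  intro a
  induction a using Nat.strong_induction_on with
  | _ a ih =>
    intro ha
    by_cases h2 : 2 ∣ a
    · obtain ⟨c, rfl⟩ := h2
      obtain ⟨m, s, h1, h3, b, hb, α, h4⟩ := ih c (by omega) (by omega)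
      exact ⟨m, 2 * s, by rw [h1]; ring, h3, b, hb, α + 1, by rw [h4]; ring⟩
    · by_cases h3 : 3 ∣ a
      · obtain ⟨c, rfl⟩ := h3
        obtain ⟨m, s, h1, h4, b, hb, α, h5⟩ := ih c (by omega) (by omega)
        have h6 : α = 0 := by
          by_contra hα
          apply h2
          rw [h1, h5]
          exact Dvd.dvd.mul_left (Dvd.dvd.mul_left (Dvd.dvd.mul_left
            (dvd_pow_self 2 hα) _) m) 3
        subst h6
        rw [pow_zero, mul_one] at h5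
        by_cases hb3 : b = 3
        · subst hb3
          obtain ⟨i, t, h8, h9⟩ := h4
          refine ⟨81 * m, 1, by rw [h1, h5]; ring, ⟨i + 1, t, by rw [h8]; ring, h9⟩,
            0, by norm_num, 0, by norm_num⟩
        · exact ⟨m, 3 ^ (b + 1), by rw [h1, h5]; ring, h4, b + 1, by omega, 0, by ring⟩
      · refine ⟨a, 1, by ring, ⟨0, a, by ring, ?_⟩, 0, by norm_num, 0, by norm_num⟩
        have h4 : Nat.Coprime 2 a := (Nat.Prime.coprime_iff_not_dvd Nat.prime_two).2 h2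
        have h5 : Nat.Coprime 3 a := (Nat.Prime.coprime_iff_not_dvd Nat.prime_three).2 h3
        exact Nat.Coprime.mul_left h4 h5

open Classical in
/-- number of representatives up to `y` -/
noncomputable def cM4 (y : ℕ) : ℕ := ((Icc 1 y).filter Mp4).card

open Classical in
theorem cM4_rec (y : ℕ) : cM4 y ≤ (TT 6 y).card + cM4 (y / 81) := by
  have h1 : (Icc 1 y).filter Mp4 ⊆
      TT 6 y ∪ ((Icc 1 (y / 81)).filter Mp4).image (fun m => 81 * m) := by
    intro m hm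
    obtain ⟨h2, i, t, h3, h4⟩ := mem_filter.1 hm
    rw [mem_union]
    rcases Nat.eq_zero_or_pos i with h0 | h0
    · left
      rw [h3, h0, pow_zero, one_mul]
      rw [h3, h0, pow_zero, one_mul] at h2
      exact mem_filter.2 ⟨h2, h4⟩
    · right
      obtain ⟨j, rfl⟩ : ∃ j, i = j + 1 := ⟨i - 1, by omega⟩
      have h5 := mem_Icc.1 h2
      refine mem_image.2 ⟨81 ^ j * t, mem_filter.2 ⟨?_, j, t, rfl, h4⟩, by rw [h3]; ring⟩
      have h6 : m = 81 * (81 ^ j * t) := by rw [h3]; ring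
      rw [mem_Icc]
      omega
  exact (card_le_card h1).trans ((card_union_le _ _).trans
    (Nat.add_le_add_left card_image_le _))

theorem cM4_le (y : ℕ) : (cM4 y : ℝ) ≤ 27 / 80 * y + 3 * √y := by
  induction y using Nat.strong_induction_on with
  | _ y ih =>
    rcases Nat.eq_zero_or_pos y with h0 | h0
    · subst h0
      simp [cM4]
    · have h1 := cM4_rec y
      have h2 := ih (y / 81) (Nat.div_lt_self h0 (by norm_num))
      have h3 := (TT_bounds 6 y (by norm_num)).2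
      have h4 : Nat.totient 6 = 2 := by decide
      rw [h4] at h3
      have h5 : ((TT 6 y).card : ℝ) ≤ y / 3 + 2 := by
        have h6 : 3 * (TT 6 y).card ≤ y + 6 := by omega
        have h7 : (3 : ℝ) * (TT 6 y).card ≤ y + 6 := by exact_mod_cast h6
        linarith
      have h6 : ((y / 81 : ℕ) : ℝ) ≤ y / 81 := by
        have := @Nat.cast_div_le ℝ _ _ _ y 81
        push_cast at this
        exact this
      have h7 : √((y / 81 : ℕ) : ℝ) ≤ √y / 9 := by
        rw [show (√(y : ℝ)) / 9 = √((y : ℝ) / 81) by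
          rw [Real.sqrt_div (Nat.cast_nonneg _)]
          congr 1
          rw [show (81 : ℝ) = 9 ^ 2 by norm_num, Real.sqrt_sq (by norm_num)]]
        exact Real.sqrt_le_sqrt h6
      have h8 : (1 : ℝ) ≤ √y := by
        rw [Real.one_le_sqrt]
        exact_mod_cast h0
      have h9 : (cM4 y : ℝ) ≤ (TT 6 y).card + cM4 (y / 81) := by exact_mod_cast h1
      linarith

open Classical in
theorem upper4 (n : ℕ) (A : Finset ℕ) (hA : A ⊆ Icc 1 n) (h : MF 2 A) :
    A.card ≤ cM4 n + cM4 (n / 2) + cM4 (n / 3) + cM4 (n / 8) + cM4 (n / 9) + cM4 (n / 27) +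
      cM4 (n / 32) + cM4 (n / 128) := by
  have hdec : ∀ a : ℕ, ∃ m s, 0 < a → a = m * s ∧ Mp4 m ∧ Blk4 s := by
    intro a
    rcases Nat.eq_zero_or_pos a with h0 | h0
    · exact ⟨0, 0, fun h => absurd h (by omega)⟩
    · obtain ⟨t, s, h1⟩ := decomp4 a h0
      exact ⟨t, s, fun _ => h1⟩
  choose τ σ hτ using hdec
  have hpos : ∀ a ∈ A, 0 < a := fun a ha => (mem_Icc.1 (hA ha)).1
  have hτ0 : ∀ a ∈ A, 0 < τ a ∧ 0 < σ a := by
    intro a ha
    have h1 := (hτ a (hpos a ha)).1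
    have h2 := hpos a ha
    constructor
    · rcases Nat.eq_zero_or_pos (τ a) with h0 | h0
      · rw [h0, zero_mul] at h1; omega
      · exact h0
    · rcases Nat.eq_zero_or_pos (σ a) with h0 | h0
      · rw [h0, mul_zero] at h1; omega
      · exact h0
  have hmaps : Set.MapsTo τ (A : Set ℕ) ((Icc 1 n).filter Mp4 : Set ℕ) := by
    intro a ha
    have ha' : a ∈ A := ha
    have h1 := hτ a (hpos a ha')
    have h2 := hτ0 a ha'
    have h3 := mem_Icc.1 (hA ha')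
    have h4 : τ a ≤ a := by
      calc τ a = τ a * 1 := (mul_one _).symm
        _ ≤ τ a * σ a := Nat.mul_le_mul_left _ h2.2
        _ = a := h1.1.symm
    simp only [coe_filter, Set.mem_ofPred_eq, mem_Icc]
    exact ⟨⟨h2.1, h4.trans h3.2⟩, h1.2.1⟩
  have hsum : ∀ j : ℕ, 0 < j → (∑ m ∈ (Icc 1 n).filter Mp4, if j ≤ n / m then 1 else 0) =
      cM4 (n / j) := by
    intro j hj
    rw [← card_filter, cM4]
    congr 1
    ext m
    simp only [mem_filter, mem_Icc]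
    constructor
    · rintro ⟨⟨⟨h1, h2⟩, h3⟩, h4⟩
      have h5 := (Nat.le_div_iff_mul_le h1).1 h4
      exact ⟨⟨h1, (Nat.le_div_iff_mul_le hj).2 (by rw [mul_comm]; exact h5)⟩, h3⟩
    · rintro ⟨⟨h1, h2⟩, h3⟩
      have h5 := (Nat.le_div_iff_mul_le hj).1 h2
      refine ⟨⟨⟨h1, ?_⟩, h3⟩, (Nat.le_div_iff_mul_le h1).2 (by rw [mul_comm]; exact h5)⟩
      calc m = m * 1 := (mul_one m).symm
        _ ≤ m * j := Nat.mul_le_mul_left _ hj
        _ ≤ n := h5
  have hn1 : cM4 n = cM4 (n / 1) := by rw [Nat.div_one]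
  rw [hn1, ← hsum 1 one_pos, ← hsum 2 two_pos, ← hsum 3 (by norm_num), ← hsum 8 (by norm_num),
    ← hsum 9 (by norm_num), ← hsum 27 (by norm_num), ← hsum 32 (by norm_num),
    ← hsum 128 (by norm_num), ← sum_add_distrib, ← sum_add_distrib, ← sum_add_distrib,
    ← sum_add_distrib, ← sum_add_distrib, ← sum_add_distrib, ← sum_add_distrib,
    card_eq_sum_card_fiberwise hmaps]
  apply sum_le_sum
  intro t ht
  have ht' := mem_filter.1 ht
  have ht0 : 0 < t := (mem_Icc.1 ht'.1).1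
  have hinj : Set.InjOn σ ((A.filter (fun a => τ a = t) : Finset ℕ) : Set ℕ) := by
    intro a ha b hb hab
    simp only [coe_filter, Set.mem_ofPred_eq] at ha hb
    rw [(hτ a (hpos a ha.1)).1, (hτ b (hpos b hb.1)).1, ha.2, hb.2, hab]
  rw [← card_image_of_injOn hinj]
  apply block_le4
  · intro s hs
    obtain ⟨a, ha, rfl⟩ := mem_image.1 hs
    have ha' := mem_filter.1 ha
    have h1 := hτ a (hpos a ha'.1)
    have h2 := mem_Icc.1 (hA ha'.1)
    rw [mem_Icc]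
    refine ⟨(hτ0 a ha'.1).2, (Nat.le_div_iff_mul_le ht0).2 ?_⟩
    rw [mul_comm, ← ha'.2, ← h1.1]
    exact h2.2
  · intro s hs
    obtain ⟨a, ha, rfl⟩ := mem_image.1 hs
    have ha' := mem_filter.1 ha
    refine lt_of_le_of_lt ?_ (h a ha'.1)
    apply card_le_card_of_injOn (fun s => t * s)
    · intro s' hs'
      simp only [coe_filter, Set.mem_ofPred_eq, mem_image, mem_filter] at hs' ⊢
      obtain ⟨⟨b, ⟨hb1, hb2⟩, rfl⟩, h3, h4⟩ := hs'
      have h5 : b = t * σ b := by rw [← hb2]; exact (hτ b (hpos b hb1)).1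
      have h6 : a = t * σ a := by rw [← ha'.2]; exact (hτ a (hpos a ha'.1)).1
      rw [← h5]
      refine ⟨hb1, ?_, ?_⟩
      · rintro rfl
        exact h3 rfl
      · rw [h5, h6]
        exact Nat.mul_dvd_mul_left _ h4
    · intro s _ s' _ hss
      exact Nat.eq_of_mul_eq_mul_left ht0 hss
  · intro s hs
    obtain ⟨a, ha, rfl⟩ := mem_image.1 hs
    exact (hτ a (hpos a (mem_filter.1 ha).1)).2.2

theorem upper4_real (n : ℕ) (A : Finset ℕ) (hA : A ⊆ Icc 1 n) (h : MF 2 A) :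
    (A.card : ℝ) ≤ 1483 / 2048 * n + 24 * √n := by
  have h1 := upper4 n A hA h
  have h2 : (A.card : ℝ) ≤ cM4 n + cM4 (n / 2) + cM4 (n / 3) + cM4 (n / 8) + cM4 (n / 9) +
      cM4 (n / 27) + cM4 (n / 32) + cM4 (n / 128) := by exact_mod_cast h1
  have key : ∀ j : ℕ, 0 < j → (cM4 (n / j) : ℝ) ≤ 27 / 80 * (n / j) + 3 * √n := by
    intro j hj
    have h3 := cM4_le (n / j)
    have h4 : ((n / j : ℕ) : ℝ) ≤ n / j := Nat.cast_div_le
    have h5 : ((n / j : ℕ) : ℝ) ≤ n := by exact_mod_cast Nat.div_le_self n j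
    have h6 : √((n / j : ℕ) : ℝ) ≤ √n := Real.sqrt_le_sqrt h5
    linarith
  have k1 := cM4_le n
  have k2 := key 2 (by norm_num)
  have k3 := key 3 (by norm_num)
  have k8 := key 8 (by norm_num)
  have k9 := key 9 (by norm_num)
  have k27 := key 27 (by norm_num)
  have k32 := key 32 (by norm_num)
  have k128 := key 128 (by norm_num)
  push_cast at k2 k3 k8 k9 k27 k32 k128
  linarith

/-- The bounds for the limit. -/
theorem bounds_four (G : ℕ → ℕ)
    (h1 : ∀ n, ∀ A ⊆ Icc 1 n, MF 2 A → A.card ≤ G n)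
    (h2 : ∀ n, ∃ A ⊆ Icc 1 n, MF 2 A ∧ A.card = G n) :
    ∃ c : ℝ, Tendsto (fun n : ℕ => (G n : ℝ) / n) atTop (𝓝 c) ∧ 43 / 60 ≤ c ∧
      c ≤ 1483 / 2048 := by
  obtain ⟨c, hc, hc1, -⟩ := bounds_two G h1 h2
  refine ⟨c, hc, hc1, ?_⟩
  have hT : Tendsto (fun j : ℕ => (j + 1) ^ 2) atTop atTop :=
    tendsto_atTop_mono (fun m => by simp only [id]; nlinarith) tendsto_id
  have hlim : Tendsto (fun j : ℕ => (1483 / 2048 : ℝ) + 24 / ((j + 1 : ℕ) : ℝ)) atTop
      (𝓝 (1483 / 2048 + 0)) := by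
    apply tendsto_const_nhds.add
    exact (tendsto_add_atTop_iff_nat (f := fun j : ℕ => (24 : ℝ) / j) 1).2
      (tendsto_const_div_atTop_nhds_zero_nat 24)
  rw [add_zero] at hlim
  refine le_of_tendsto_of_tendsto' (hc.comp hT) hlim (fun j => ?_)
  obtain ⟨A, hA1, hA2, hA3⟩ := h2 ((j + 1) ^ 2)
  have h3 := upper4_real _ A hA1 hA2
  rw [hA3] at h3
  have hj : (0 : ℝ) < (j : ℝ) + 1 := by positivity
  push_cast at h3
  rw [Real.sqrt_sq hj.le] at h3
  simp only [Function.comp]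
  push_cast
  rw [div_le_iff₀ (by positivity)]
  have h4 : (1483 / 2048 + 24 / ((j : ℝ) + 1)) * ((j : ℝ) + 1) ^ 2 =
      1483 / 2048 * ((j : ℝ) + 1) ^ 2 + 24 * (j + 1) := by
    field_simp
  rw [h4]
  exact h3

end Pool.Agent.TH444.MF
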