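import Mathlib
import Pool.Agent.TH444.MF.Four

/-!
The case `k = 2`: the upper bound `13/18`, from the 3-smooth numbers.
-/

set_option autoImplicit false
open Finset Filter Topology

namespace Pool.Agent.TH444.MF

/-- number of `j` with `b ^ j ≤ u` -/
def qq (b u : ℕ) : ℕ := if u = 0 then 0 else Nat.log b u + 1

theorem qq_zero (b : ℕ) : qq b 0 = 0 := by simp [qq]

theorem qq_rec (b u : ℕ) (hb : 1 < b) : qq b u ≤ 1 + qq b (u / b) := by
  unfold qq
  by_cases hu : u = 0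
  · simp [hu]
  · rw [if_neg hu]
    by_cases h1 : b ≤ u
    · have h2 : u / b ≠ 0 := (Nat.div_pos h1 (by omega)).ne'
      rw [if_neg h2, Nat.log_div_base]
      omega
    · have h2 : Nat.log b u = 0 := Nat.log_of_lt (by omega)
      omega

theorem chainD {B : Finset ℕ} (h : MF 2 B) : ∀ (d : ℕ) (D : Finset ℕ), D.card = d + 1 →
    (∀ b ∈ D, 2 ≤ (col B b).card) → ∃ b ∈ D, (∀ b' ∈ D, b ≤ b') ∧
      ∃ α β, α < β ∧ 3 ^ b * 2 ^ α ∈ B ∧ 3 ^ b * 2 ^ β ∈ B ∧ 2 * d + 1 ≤ β := by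
  intro d
  induction d with
  | zero =>
    intro D hD h2
    obtain ⟨b, rfl⟩ := card_eq_one.1 hD
    obtain ⟨α, β, h3, h4, h5⟩ := col_two (h2 b (mem_singleton_self b))
    refine ⟨b, mem_singleton_self b, fun b' hb' => (mem_singleton.1 hb').symm.le, α, β, h3, h4, h5,
      by omega⟩
  | succ d ih =>
    intro D hD h2
    have hne : D.Nonempty := card_pos.1 (by omega)
    have hm := D.min'_mem hne
    obtain ⟨b1, hb1, -, α1, β1, h3, h4, h5, h6⟩ := ih (D.erase (D.min' hne))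
      (by rw [card_erase_of_mem hm]; omega) (fun b hb => h2 b (mem_of_mem_erase hb))
    obtain ⟨α0, β0, h7, h8, h9⟩ := col_two (h2 _ hm)
    have hb1' := mem_erase.1 hb1
    have hlt : D.min' hne < b1 :=
      lt_of_le_of_ne (D.min'_le b1 hb1'.2) (Ne.symm hb1'.1)
    have h10 := col_lt h hlt h3 h4 h5 h8
    exact ⟨D.min' hne, hm, fun b' hb' => D.min'_le b' hb', α0, β0, h7, h8, h9, by omega⟩

theorem sm6 {s : ℕ} (hs : Sm 6 s) : ∃ b α, s = 3 ^ b * 2 ^ α := by
  obtain ⟨j, hj⟩ := hs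
  rw [show (6 : ℕ) = 2 * 3 by norm_num, mul_pow, Nat.dvd_mul] at hj
  obtain ⟨x, y, hx, hy, hxy⟩ := hj
  obtain ⟨α, -, rfl⟩ := (Nat.dvd_prime_pow Nat.prime_two).1 hx
  obtain ⟨b, -, rfl⟩ := (Nat.dvd_prime_pow Nat.prime_three).1 hy
  exact ⟨b, α, by rw [← hxy]; ring⟩

open Classical in
theorem hh_le_qq (u : ℕ) : hh 2 6 u ≤ qq 3 u + qq 4 (u / 2) := by
  obtain ⟨B, hB, h1, h2, hc⟩ := exists_hh 2 6 u
  rw [← hc]
  rcases Nat.eq_zero_or_pos u with h0 | h0
  · subst h0
    have : B = ∅ := by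
      apply subset_empty.1
      simpa using hB
    simp [this]
  · have hle : ∀ x ∈ B, x ≤ u := fun x hx => (mem_Icc.1 (hB hx)).2
    have hBsub : B ⊆ (range (Nat.log 3 u + 1)).biUnion (fun b => col B b) := by
      intro s hs
      obtain ⟨b, α, h3⟩ := sm6 (h2 s hs)
      rw [mem_biUnion]
      refine ⟨b, mem_range.2 ?_, mem_filter.2 ⟨hs, α, h3⟩⟩
      have h4 : 3 ^ b ≤ u := by
        have h5 := hle s hs
        have h6 : 3 ^ b * 1 ≤ 3 ^ b * 2 ^ α := Nat.mul_le_mul_left _ Nat.one_le_two_pow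
        omega
      have h7 : b ≤ Nat.log 3 u := Nat.le_log_of_pow_le (by norm_num) h4
      omega
    have hcard : B.card ≤ ∑ b ∈ range (Nat.log 3 u + 1), (col B b).card :=
      (card_le_card hBsub).trans card_biUnion_le
    set D := (range (Nat.log 3 u + 1)).filter (fun b => 2 ≤ (col B b).card) with hD
    have hsum : ∑ b ∈ range (Nat.log 3 u + 1), (col B b).card ≤
        (Nat.log 3 u + 1) + D.card := by
      calc ∑ b ∈ range (Nat.log 3 u + 1), (col B b).card ≤
          ∑ b ∈ range (Nat.log 3 u + 1), (1 + if 2 ≤ (col B b).card then 1 else 0) := by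
            apply sum_le_sum
            intro b _
            have := col_le hB h1 b
            split_ifs <;> omega
        _ = (Nat.log 3 u + 1) + D.card := by
            rw [sum_add_distrib, ← card_filter]
            simp
            rfl
    have hq3 : qq 3 u = Nat.log 3 u + 1 := by simp [qq, h0.ne']
    have hDc : D.card ≤ qq 4 (u / 2) := by
      rcases Nat.eq_zero_or_pos D.card with h3 | h3
      · omega
      · obtain ⟨d, hd⟩ : ∃ d, D.card = d + 1 := ⟨D.card - 1, by omega⟩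
        obtain ⟨b, -, -, α, β, h4, h5, h6, h7⟩ := chainD h1 d D hd
          (fun b hb => (mem_filter.1 hb).2)
        have h8 := hle _ h6
        have h9 : 1 * 2 ^ β ≤ 3 ^ b * 2 ^ β :=
          Nat.mul_le_mul_right _ (Nat.one_le_pow _ _ (by norm_num))
        have h10 : 2 ^ (2 * d + 1) ≤ 2 ^ β := Nat.pow_le_pow_right (by norm_num) h7
        have h11 : 4 ^ d * 2 ≤ u := by
          have h12 : 2 ^ (2 * d + 1) = 4 ^ d * 2 := by
            rw [pow_succ, pow_mul]
            norm_num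
          omega
        have h12 : 4 ^ d ≤ u / 2 := by omega
        have h13 : 0 < 4 ^ d := by positivity
        have h14 : d ≤ Nat.log 4 (u / 2) := Nat.le_log_of_pow_le (by norm_num) h12
        have h15 : u / 2 ≠ 0 := by omega
        rw [qq, if_neg h15]
        omega
    omega

/-- sums of `qq b` over rough numbers -/
def SS (b n : ℕ) : ℕ := ∑ t ∈ TT 6 n, qq b (n / t)

theorem TT_mono_sum (b c n : ℕ) (hc : 0 < c) :
    ∑ t ∈ TT 6 n, qq b (n / t / c) = SS b (n / c) := by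
  unfold SS
  symm
  have h1 : TT 6 (n / c) ⊆ TT 6 n := by
    apply filter_subset_filter
    exact Icc_subset_Icc_right (Nat.div_le_self _ _)
  have h2 : ∀ t, n / c / t = n / t / c := by
    intro t
    rw [Nat.div_div_eq_div_mul, Nat.div_div_eq_div_mul, mul_comm]
  rw [sum_congr rfl (fun t _ => by rw [h2 t])]
  apply sum_subset h1
  intro t ht ht'
  have h3 := mem_filter.1 ht
  have h4 := mem_Icc.1 h3.1
  have h5 : n / c < t := by
    by_contra hcon
    push Not at hcon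
    exact ht' (mem_filter.2 ⟨mem_Icc.2 ⟨h4.1, hcon⟩, h3.2⟩)
  have h6 : n / t / c = 0 := by
    rw [← h2 t]
    exact Nat.div_eq_of_lt h5
  rw [h6, qq_zero]

theorem SS_rec (b n : ℕ) (hb : 1 < b) : SS b n ≤ (TT 6 n).card + SS b (n / b) := by
  rw [← TT_mono_sum b b n (by omega), SS, card_eq_sum_ones, ← sum_add_distrib]
  apply sum_le_sum
  intro t _
  exact qq_rec b (n / t) hb

theorem TT6 (y : ℕ) : ((TT 6 y).card : ℝ) ≤ y / 3 + 2 := by
  have h3 := (TT_bounds 6 y (by norm_num)).2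
  have h4 : Nat.totient 6 = 2 := by decide
  rw [h4] at h3
  have h6 : 3 * (TT 6 y).card ≤ y + 6 := by omega
  have h7 : (3 : ℝ) * (TT 6 y).card ≤ y + 6 := by exact_mod_cast h6
  linarith

theorem SS3_le (y : ℕ) : (SS 3 y : ℝ) ≤ 1 / 2 * y + 6 * √y := by
  induction y using Nat.strong_induction_on with
  | _ y ih =>
    rcases Nat.eq_zero_or_pos y with h0 | h0
    · subst h0
      simp [SS, TT]
    · have h1 := SS_rec 3 y (by norm_num)
      have h2 := ih (y / 3) (Nat.div_lt_self h0 (by norm_num))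
      have h5 := TT6 y
      have h6 : ((y / 3 : ℕ) : ℝ) ≤ y / 3 := by
        have := @Nat.cast_div_le ℝ _ _ _ y 3
        push_cast at this
        exact this
      have hs0 : 0 ≤ √(y : ℝ) := Real.sqrt_nonneg _
      have h7 : √((y / 3 : ℕ) : ℝ) ≤ 2 / 3 * √y := by
        apply Real.sqrt_le_iff.2
        refine ⟨by positivity, ?_⟩
        rw [mul_pow, Real.sq_sqrt (Nat.cast_nonneg _)]
        have hy : (0 : ℝ) ≤ y := Nat.cast_nonneg _
        nlinarith
      have h8 : (1 : ℝ) ≤ √y := by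
        rw [Real.one_le_sqrt]
        exact_mod_cast h0
      have h9 : (SS 3 y : ℝ) ≤ (TT 6 y).card + SS 3 (y / 3) := by exact_mod_cast h1
      linarith

theorem SS4_le (y : ℕ) : (SS 4 y : ℝ) ≤ 4 / 9 * y + 4 * √y := by
  induction y using Nat.strong_induction_on with
  | _ y ih =>
    rcases Nat.eq_zero_or_pos y with h0 | h0
    · subst h0
      simp [SS, TT]
    · have h1 := SS_rec 4 y (by norm_num)
      have h2 := ih (y / 4) (Nat.div_lt_self h0 (by norm_num))
      have h5 := TT6 y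
      have h6 : ((y / 4 : ℕ) : ℝ) ≤ y / 4 := by
        have := @Nat.cast_div_le ℝ _ _ _ y 4
        push_cast at this
        exact this
      have hs0 : 0 ≤ √(y : ℝ) := Real.sqrt_nonneg _
      have h7 : √((y / 4 : ℕ) : ℝ) ≤ 1 / 2 * √y := by
        apply Real.sqrt_le_iff.2
        refine ⟨by positivity, ?_⟩
        rw [mul_pow, Real.sq_sqrt (Nat.cast_nonneg _)]
        have hy : (0 : ℝ) ≤ y := Nat.cast_nonneg _
        nlinarith
      have h8 : (1 : ℝ) ≤ √y := by
        rw [Real.one_le_sqrt]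
        exact_mod_cast h0
      have h9 : (SS 4 y : ℝ) ≤ (TT 6 y).card + SS 4 (y / 4) := by exact_mod_cast h1
      linarith

theorem upper13 (n : ℕ) (A : Finset ℕ) (hA : A ⊆ Icc 1 n) (h : MF 2 A) :
    (A.card : ℝ) ≤ 13 / 18 * n + 10 * √n := by
  have h1 := card_le_sum 2 6 n (by norm_num) A hA h
  have h2 : ∑ t ∈ TT 6 n, hh 2 6 (n / t) ≤ SS 3 n + SS 4 (n / 2) := by
    rw [← TT_mono_sum 4 2 n (by norm_num), SS, ← sum_add_distrib]
    exact sum_le_sum fun t _ => hh_le_qq (n / t)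
  have h3 : (A.card : ℝ) ≤ SS 3 n + SS 4 (n / 2) := by exact_mod_cast h1.trans h2
  have h4 := SS3_le n
  have h5 := SS4_le (n / 2)
  have h6 : ((n / 2 : ℕ) : ℝ) ≤ n / 2 := by
    have := @Nat.cast_div_le ℝ _ _ _ n 2
    push_cast at this
    exact this
  have h7 : ((n / 2 : ℕ) : ℝ) ≤ n := by exact_mod_cast Nat.div_le_self n 2
  have h8 : √((n / 2 : ℕ) : ℝ) ≤ √n := Real.sqrt_le_sqrt h7
  linarith

/-- The bounds for the limit. -/
theorem bounds_final (G : ℕ → ℕ)
    (h1 : ∀ n, ∀ A ⊆ Icc 1 n, MF 2 A → A.card ≤ G n)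
    (h2 : ∀ n, ∃ A ⊆ Icc 1 n, MF 2 A ∧ A.card = G n) :
    ∃ c : ℝ, Tendsto (fun n : ℕ => (G n : ℝ) / n) atTop (𝓝 c) ∧ 43 / 60 ≤ c ∧
      c ≤ 13 / 18 := by
  obtain ⟨c, hc, hc1, -⟩ := bounds_two G h1 h2
  refine ⟨c, hc, hc1, ?_⟩
  have hT : Tendsto (fun j : ℕ => (j + 1) ^ 2) atTop atTop :=
    tendsto_atTop_mono (fun m => by simp only [id]; nlinarith) tendsto_id
  have hlim : Tendsto (fun j : ℕ => (13 / 18 : ℝ) + 10 / ((j + 1 : ℕ) : ℝ)) atTop
      (𝓝 (13 / 18 + 0)) := by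
    apply tendsto_const_nhds.add
    exact (tendsto_add_atTop_iff_nat (f := fun j : ℕ => (10 : ℝ) / j) 1).2
      (tendsto_const_div_atTop_nhds_zero_nat 10)
  rw [add_zero] at hlim
  refine le_of_tendsto_of_tendsto' (hc.comp hT) hlim (fun j => ?_)
  obtain ⟨A, hA1, hA2, hA3⟩ := h2 ((j + 1) ^ 2)
  have h3 := upper13 _ A hA1 hA2
  rw [hA3] at h3
  have hj : (0 : ℝ) < (j : ℝ) + 1 := by positivity
  push_cast at h3
  rw [Real.sqrt_sq hj.le] at h3
  simp only [Function.comp]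
  push_cast
  rw [div_le_iff₀ (by positivity)]
  have h4 : (13 / 18 + 10 / ((j : ℝ) + 1)) * ((j : ℝ) + 1) ^ 2 =
      13 / 18 * ((j : ℝ) + 1) ^ 2 + 10 * (j + 1) := by
    field_simp
  rw [h4]
  exact h3

end Pool.Agent.TH444.MF
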